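import Pool.Agent.H239.PBS.Kick

set_option autoImplicit false

/-! Near bounded solutions with a large excursion there are open sets without bounded solutions. -/

namespace Pool.Agent.H239.PBS

open Set Filter Topology Pool.Agent.W821.TB
open Pool.Agent.Q85.UB (prel Bdd)

/-- the size of the change of the velocity -/
theorem kappa (M ρ₀ ρ₁ ζ v : ℝ) (hM : 0 < M) (hρ₀ : 0 < ρ₀) (hv : 0 ≤ v) (hζ : 0 < ζ)
    (hζ1 : 42 * ζ ≤ 1) (hup : v ^ 2 * ρ₀ ≤ 2 * M * (1 + 240 * ζ ^ 2))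
    (hlow : 2 * M * (1 - ρ₀ / ρ₁ - 80 * ζ ^ 2) ≤ v ^ 2 * ρ₀) :
    ∃ κ, 0 ≤ κ ∧ κ ≤ Real.sqrt (2 * M / ρ₀) * (ρ₀ / ρ₁ + 341 * ζ ^ 2) ∧
      2 * M * (1 + 260 * ζ ^ 2) < (v + κ) ^ 2 * ρ₀ ∧ (v + κ) ^ 2 * ρ₀ ≤ 12 / 5 * M := by
  obtain ⟨T, hT⟩ : ∃ T, T = Real.sqrt (2 * M * (1 + 261 * ζ ^ 2) / ρ₀) := ⟨_, rfl⟩
  have hT2 : T ^ 2 * ρ₀ = 2 * M * (1 + 261 * ζ ^ 2) := by
    rw [hT, Real.sq_sqrt (by positivity)]
    field_simp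
  obtain ⟨s, hs⟩ : ∃ s, s = Real.sqrt (2 * M / ρ₀) := ⟨_, rfl⟩
  have hs2 : s ^ 2 * ρ₀ = 2 * M := by
    rw [hs, Real.sq_sqrt (by positivity)]
    field_simp
  have hs0 : 0 < s := by rw [hs]; exact Real.sqrt_pos.2 (by positivity)
  have hT0 : 0 ≤ T := by rw [hT]; exact Real.sqrt_nonneg _
  have hζ2 : 0 < ζ ^ 2 := by positivity
  have hMζ : 0 < M * ζ ^ 2 := by positivity
  have hsT : s ≤ T := by
    refine le_of_sq_le_sq ?_ hT0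
    have h1 : s ^ 2 * ρ₀ ≤ T ^ 2 * ρ₀ := by rw [hs2, hT2]; nlinarith
    exact le_of_mul_le_mul_right h1 hρ₀
  have hvT : v ≤ T := by
    refine le_of_sq_le_sq ?_ hT0
    have h1 : v ^ 2 * ρ₀ ≤ T ^ 2 * ρ₀ := by rw [hT2]; nlinarith
    exact le_of_mul_le_mul_right h1 hρ₀
  rw [← hs]
  refine ⟨T - v, by linarith, ?_, ?_, ?_⟩
  · -- `(T - v) s ≤ T ^ 2 - v ^ 2`
    have h1 : (T - v) * s ≤ T ^ 2 - v ^ 2 := by nlinarith
    have h2 : (T ^ 2 - v ^ 2) * ρ₀ ≤ 2 * M * (ρ₀ / ρ₁ + 341 * ζ ^ 2) := by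
      have : (T ^ 2 - v ^ 2) * ρ₀ = T ^ 2 * ρ₀ - v ^ 2 * ρ₀ := by ring
      rw [this, hT2]
      linarith
    have h3 : (T - v) * s * ρ₀ ≤ s * (ρ₀ / ρ₁ + 341 * ζ ^ 2) * s * ρ₀ := by
      calc (T - v) * s * ρ₀ ≤ (T ^ 2 - v ^ 2) * ρ₀ := by gcongr
        _ ≤ 2 * M * (ρ₀ / ρ₁ + 341 * ζ ^ 2) := h2
        _ = s ^ 2 * ρ₀ * (ρ₀ / ρ₁ + 341 * ζ ^ 2) := by rw [hs2]
        _ = _ := by ring
    have h4 := le_of_mul_le_mul_right h3 hρ₀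
    exact le_of_mul_le_mul_right h4 hs0
  · rw [add_sub_cancel, hT2]
    nlinarith
  · rw [add_sub_cancel, hT2]
    have : ζ ^ 2 ≤ (1 / 42) ^ 2 := pow_le_pow_left₀ hζ.le (by linarith) 2
    nlinarith

/-- **near a bounded solution with a large excursion** -/
theorem nearB (m : Fin 3 → ℝ) (hm : ∀ i, 0 < m i) (M : ℝ) (hM : ∑ i, m i = M)
    {x : ℝ → Ph 3} (hx : IsSol m Set.univ x) (hb : Bdd x) (E : ℝ) (hE0 : energy m (x 0) = E) (hE : E < 0)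
    (J : ℝ) (hJ : |ang m (x 0)| ≤ J)
    (a b c : Fin 3) (hab : a ≠ b) (hca : c ≠ a) (hcb : c ≠ b) (ρ₀ t₁ : ℝ)
    (h0 : ρ₀ ≤ ‖prel m (x t₁).1 a b c‖)
    (hr : ‖(x t₁).1 a - (x t₁).1 b‖ < ‖prel m (x t₁).1 a b c‖ / 2)
    (hK : 42 * (m a * m b + m b * m c + m c * m a) < ρ₀ * (-E))
    (hJρ : 8 * M * (J ^ 2 + 4 * (m a * m b) ^ 3 / ((m a + m b) * (-E))) / (m c * (m a + m b)) ^ 2 ≤ ρ₀) :
    ∃ t, ‖prel m (x t).1 a b c‖ = ρ₀ ∧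
      2 * M * (1 - ρ₀ / ‖prel m (x t₁).1 a b c‖ - 80 * (m a * m b / (ρ₀ * (-E))) ^ 2) ≤
        ‖prel m (x t).2 a b c‖ ^ 2 * ρ₀ ∧
      ∃ z' ∈ phaseSpace m, z'.1 = (x t).1 ∧ (∀ i, ‖z'.2 i - (x t).2 i‖ ≤
        Real.sqrt (2 * M / ρ₀) * (ρ₀ / ‖prel m (x t₁).1 a b c‖ + 341 * (m a * m b / (ρ₀ * (-E))) ^ 2)) ∧
        z' ∈ UU m M a b c := by
  have hma := hm a
  have hmb := hm b
  have hmc := hm c
  have hMs : m a + m b + m c = M := by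
    rw [← hM, Pool.Agent.Q85.UB.sum3 m a b c hab hca hcb]
  have hM0 : 0 < M := by rw [← hMs]; positivity
  have hE' : 0 < -E := by linarith
  have hpr : 0 < m a * m b + m b * m c + m c * m a := by positivity
  have hρ₀ : 0 < ρ₀ := by
    by_contra hcon
    have h1 : ρ₀ * (-E) ≤ 0 := mul_nonpos_of_nonpos_of_nonneg (not_lt.1 hcon) hE'.le
    linarith
  obtain ⟨t, h1, h2, h3⟩ := low m hm M hM hx hb E hE0 hE J hJ a b c hab hca hcb ρ₀ t₁ h0 hr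
    (by linarith) hJρ
  have hup := outP m hm M hM hx hb E hE0 hE a b c hab hca hcb t h1 (by rw [h2]; linarith)
  rw [h2] at hup
  obtain ⟨ζ, hζ⟩ : ∃ ζ, ζ = m a * m b / (ρ₀ * (-E)) := ⟨_, rfl⟩
  rw [← hζ] at hup h3
  have hζ0 : 0 < ζ := by rw [hζ]; positivity
  have hζ1 : 42 * ζ ≤ 1 := by
    rw [hζ, ← mul_div_assoc, div_le_one (by positivity)]
    have : 0 < m b * m c + m c * m a := by positivity
    linarith
  obtain ⟨κ, k1, k2, k3, k4⟩ := kappa M ρ₀ ‖prel m (x t₁).1 a b c‖ ζ ‖prel m (x t).2 a b c‖ hM0 hρ₀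
    (norm_nonneg _) hζ0 hζ1 hup h3
  obtain ⟨z', g1, g2, g3, g4⟩ := kickP m hm M hM (x t) (hx.mem t) E
    (by rw [energy_const hx t 0, hE0]) hE a b c hab hca hcb h1 (by rw [h2]; exact hK) κ k1
    (by rw [h2, ← hζ]; exact k3) (by rw [h2]; exact k4)
  refine ⟨t, h2, by rw [← hζ]; exact h3, z', g1, g2, fun i => ?_, g4⟩
  rw [← hζ]
  exact (g3 i).trans k2

/-- the power law -/
theorem power (m : Fin 3 → ℝ) (hm : ∀ i, 0 < m i) (M : ℝ) (hM : ∑ i, m i = M) (E : ℝ) (hE : E < 0)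
    (J : ℝ) : ∃ C : ℝ, 0 < C ∧ ∀ x : ℝ → Ph 3, IsSol m Set.univ x → Bdd x → energy m (x 0) = E →
      |ang m (x 0)| ≤ J → ∀ (t₁ : ℝ) (i j : Fin 3), C ≤ ‖(x t₁).1 i - (x t₁).1 j‖ →
      ∃ (t : ℝ) (a b c : Fin 3), a ≠ b ∧ c ≠ a ∧ c ≠ b ∧ ∃ z' ∈ phaseSpace m, z'.1 = (x t).1 ∧
        (∀ k, ‖z'.2 k - (x t).2 k‖ ≤ C * ‖(x t₁).1 i - (x t₁).1 j‖ ^ (-(5 / 6) : ℝ)) ∧
        z' ∈ UU m M a b c := by
  have hE' : 0 < -E := by linarith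
  have hM0 : 0 < M := by rw [← hM]; exact Finset.sum_pos (fun i _ => hm i) ⟨0, Finset.mem_univ _⟩
  obtain ⟨σ, hσ⟩ : ∃ σ, σ = m 0 * m 1 + m 1 * m 2 + m 2 * m 0 := ⟨_, rfl⟩
  have hσ0 : 0 < σ := by
    have h0 := hm 0
    have h1 := hm 1
    have h2 := hm 2
    rw [hσ]; positivity
  have hσ' : ∀ a b c : Fin 3, a ≠ b → c ≠ a → c ≠ b → m a * m b + m b * m c + m c * m a = σ := by
    intro a b c hab hca hcb
    rw [hσ]
    fin_cases a <;> fin_cases b <;> fin_cases c <;> simp_all <;> ring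
  -- the constants
  obtain ⟨G, hG⟩ : ∃ G : Fin 3 × Fin 3 × Fin 3 → ℝ, G = fun p =>
    8 * M * (J ^ 2 + 4 * (m p.1 * m p.2.1) ^ 3 / ((m p.1 + m p.2.1) * (-E))) /
      (m p.2.2 * (m p.1 + m p.2.1)) ^ 2 := ⟨_, rfl⟩
  have hG0 : ∀ p, 0 ≤ G p := fun p => by
    have h0 := hm p.1
    have h1 := hm p.2.1
    have h2 := hm p.2.2
    rw [hG]; positivity
  obtain ⟨G0, hG0d⟩ : ∃ G0, G0 = ∑ p, G p := ⟨_, rfl⟩
  have hGle : ∀ p, G p ≤ G0 := fun p => by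
    rw [hG0d]
    exact Finset.single_le_sum (fun q _ => hG0 q) (Finset.mem_univ p)
  obtain ⟨C0, hC0⟩ : ∃ C0, C0 = 42 * σ / (-E) + G0 + 2 := ⟨_, rfl⟩
  have hG00 : 0 ≤ G0 := (hG0 (0, 0, 0)).trans (hGle _)
  have hC0' : 2 ≤ C0 := by
    rw [hC0]
    have : 0 ≤ 42 * σ / (-E) := by positivity
    linarith
  obtain ⟨Q, hQ⟩ : ∃ Q, Q = (σ / (-E)) ^ 2 := ⟨_, rfl⟩
  have hQ0 : 0 ≤ Q := by rw [hQ]; positivity
  obtain ⟨C1, hC1⟩ : ∃ C1, C1 = Real.sqrt (2 * M) * (3 / 2 + 341 * Q) := ⟨_, rfl⟩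
  have hC10 : 0 < C1 := by
    rw [hC1]
    have : 0 < Real.sqrt (2 * M) := Real.sqrt_pos.2 (by positivity)
    positivity
  refine ⟨C0 ^ 3 + C1, by positivity, ?_⟩
  intro x hx hb hen hang t₁ i j hA
  obtain ⟨A, hAd⟩ : ∃ A, A = ‖(x t₁).1 i - (x t₁).1 j‖ := ⟨_, rfl⟩
  rw [← hAd] at hA
  have hA3 : C0 ^ 3 ≤ A := by linarith
  have hA0 : 0 < A := lt_of_lt_of_le (by positivity) hA3
  obtain ⟨s, hs⟩ : ∃ s : ℝ, s = A ^ ((1 / 6 : ℝ)) := ⟨_, rfl⟩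
  have hs0 : 0 < s := by rw [hs]; positivity
  have hs6 : s ^ 6 = A := by
    rw [hs, ← Real.rpow_natCast, ← Real.rpow_mul hA0.le]
    norm_num
  have hsC : C0 ≤ s ^ 2 := by
    have h1 : C0 ^ 3 ≤ (s ^ 2) ^ 3 := by
      rw [← pow_mul]
      norm_num
      rw [hs6]; exact hA3
    exact (pow_le_pow_iff_left₀ (by linarith) (by positivity) (by norm_num)).mp h1
  have hs1 : 1 ≤ s ^ 2 := by linarith
  have hA1 : s ^ 2 ≤ A := by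
    rw [← hs6]
    have : s ^ 2 * 1 ≤ s ^ 2 * (s ^ 2) ^ 2 := by
      gcongr
      exact one_le_pow₀ hs1
    calc s ^ 2 = s ^ 2 * 1 := by ring
      _ ≤ s ^ 2 * (s ^ 2) ^ 2 := this
      _ = s ^ 6 := by ring
  have hen1 : energy m (x t₁) = E := by rw [energy_const hx t₁ 0, hen]
  have h42 : 42 * σ < s ^ 2 * (-E) := by
    have h1 : 42 * σ / (-E) < s ^ 2 := by linarith
    rwa [div_lt_iff₀ hE'] at h1
  obtain ⟨a, b, c, hab, hca, hcb, hr, -⟩ := exOut m hm M hM E hE (x t₁) (hx.mem t₁) hen1 σ hσ' i j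
    (by
      rw [← hAd]
      have : s ^ 2 * (-E) ≤ A * (-E) := by gcongr
      linarith)
  have hd := distLe m hm (x t₁).1 a b c hab hca hcb hr i j
  rw [← hAd] at hd
  obtain ⟨ρ₁, hρ₁⟩ : ∃ ρ₁, ρ₁ = ‖prel m (x t₁).1 a b c‖ := ⟨_, rfl⟩
  have hnb := nearB m hm M hM hx hb E hen hE J hang a b c hab hca hcb (s ^ 2) t₁
  rw [← hρ₁] at hd hr hnb
  have hρs : s ^ 2 ≤ ρ₁ := by
    have h1 : 2 * s ^ 2 ≤ A := by
      rw [← hs6]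
      have h2 : 2 ≤ s ^ 2 := by linarith
      have h3 : 2 ≤ (s ^ 2) ^ 2 := by nlinarith
      calc 2 * s ^ 2 ≤ (s ^ 2) ^ 2 * s ^ 2 := by gcongr
        _ = s ^ 6 := by ring
    linarith
  obtain ⟨t, -, -, z', g1, g2, g3, g4⟩ := hnb hρs hr (by rw [hσ' a b c hab hca hcb]; exact h42)
    (by
      have h1 := hGle (a, b, c)
      rw [hG] at h1
      simp only at h1
      have : 0 ≤ 42 * σ / (-E) := by positivity
      linarith)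
  refine ⟨t, a, b, c, hab, hca, hcb, z', g1, g2, fun k => (g3 k).trans ?_, g4⟩
  rw [← hAd]
  have hma := hm a
  have hmb := hm b
  have hmc := hm c
  -- the size
  have e1 : Real.sqrt (2 * M / s ^ 2) = Real.sqrt (2 * M) / s := by
    rw [Real.sqrt_div (by positivity), Real.sqrt_sq hs0.le]
  have hρ₁0 : 0 < ρ₁ := by
    have : 0 < s ^ 2 := by positivity
    linarith
  have e2 : s ^ 2 / ρ₁ ≤ 3 / 2 / s ^ 4 := by
    rw [div_le_div_iff₀ hρ₁0 (by positivity)]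
    calc s ^ 2 * s ^ 4 = A := by rw [← hs6]; ring
      _ ≤ 3 / 2 * ρ₁ := hd
  have e3 : (m a * m b / (s ^ 2 * (-E))) ^ 2 ≤ Q / s ^ 4 := by
    have f1 : m a * m b ≤ σ := by
      rw [← hσ' a b c hab hca hcb]
      have : 0 < m b * m c + m c * m a := by positivity
      linarith
    have f2 : (m a * m b / (s ^ 2 * (-E))) ^ 2 = (m a * m b / (-E)) ^ 2 / s ^ 4 := by field_simp
    rw [f2, hQ]
    gcongr
  have e4 : A ^ (-(5 / 6) : ℝ) = 1 / s ^ 5 := by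
    rw [Real.rpow_neg hA0.le, one_div]
    congr 1
    rw [hs, ← Real.rpow_natCast, ← Real.rpow_mul hA0.le]
    norm_num
  rw [e1, e4]
  calc Real.sqrt (2 * M) / s * (s ^ 2 / ρ₁ + 341 * (m a * m b / (s ^ 2 * (-E))) ^ 2) ≤
        Real.sqrt (2 * M) / s * (3 / 2 / s ^ 4 + 341 * (Q / s ^ 4)) := by gcongr
    _ = C1 * (1 / s ^ 5) := by rw [hC1]; field_simp
    _ ≤ (C0 ^ 3 + C1) * (1 / s ^ 5) := by
        have : 0 ≤ C0 ^ 3 := by positivity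
        gcongr
        linarith

end Pool.Agent.H239.PBS
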