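import Pool.Agent.H239.PBS.Stat

set_option autoImplicit false

/-! The outer energy of the bounded solutions of the planar three-body problem: the upper bound. -/

namespace Pool.Agent.H239.PBS

open Set Filter Topology Pool.Agent.W821.TB
open Pool.Agent.Y516.NW (E3 Cfg Mot)
open Pool.Agent.Q85.UB (io io_norm io_sub io_acc io_en prel mot Bdd sum_acc3 lower_growth prel_le)
open Pool.Agent.H239.NBS (accQ)

theorem prel_deriv (m : Fin 3 → ℝ) (u : ℝ → Fin 3 → ℂ) (u' : Fin 3 → ℂ) (t : ℝ) (a b c : Fin 3)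
    (h : ∀ i, HasDerivAt (fun s => u s i) (u' i) t) :
    HasDerivAt (fun s => prel m (u s) a b c) (prel m u' a b c) t := by
  unfold prel
  exact (h c).sub ((((h a).const_mul (m a : ℂ)).add ((h b).const_mul (m b : ℂ))).div_const _)

theorem com_io (m : Fin 3 → ℝ) (u : Fin 3 → ℂ) (hu : ∑ i, (m i : ℂ) * u i = 0) :
    ∑ i, m i • io (u i) = 0 := by
  have : ∑ i, m i • io (u i) = io (∑ i, (m i : ℂ) * u i) := by
    rw [map_sum]
    refine Finset.sum_congr rfl fun i _ => ?_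
    rw [← map_smul, Complex.real_smul]
  rw [this, hu, map_zero]

theorem io_inner (z w : ℂ) : inner ℝ (io z) (io w) = inner ℝ z w := by
  rw [real_inner_eq_norm_add_mul_self_sub_norm_mul_self_sub_norm_mul_self_div_two (io z),
    real_inner_eq_norm_add_mul_self_sub_norm_mul_self_sub_norm_mul_self_div_two z, ← map_add, io_norm,
    io_norm, io_norm]

theorem escP (m : Fin 3 → ℝ) (hm : ∀ i, 0 < m i) (M : ℝ) (hM : ∑ i, m i = M)
    {x : ℝ → Ph 3} (hx : IsSol m Set.univ x) (E : ℝ) (hE0 : energy m (x 0) = E) (hE : E < 0)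
    (a b c : Fin 3) (hab : a ≠ b) (hca : c ≠ a) (hcb : c ≠ b) (σ : ℝ) (hσ : σ * σ = 1)
    (hP : 0 < σ * inner ℝ (prel m (x 0).1 a b c) (prel m (x 0).2 a b c))
    (hr : ‖(x 0).1 a - (x 0).1 b‖ < ‖prel m (x 0).1 a b c‖ / 2)
    (hK : 40 * (m a * m b) * (M / (m a + m b)) ≤ ‖prel m (x 0).1 a b c‖ * (-E))
    (hh : 2 * M * (1 + 240 * (m a * m b / (‖prel m (x 0).1 a b c‖ * (-E))) ^ 2) <
      ‖prel m (x 0).2 a b c‖ ^ 2 * ‖prel m (x 0).1 a b c‖) :
    ∀ s, 0 ≤ s → ‖prel m (x 0).1 a b c‖ ^ 2 +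
      2 * (σ * inner ℝ (prel m (x 0).1 a b c) (prel m (x 0).2 a b c)) * s ≤
      ‖prel m (x (σ * s)).1 a b c‖ ^ 2 := by
  obtain ⟨lam, hlam⟩ : ∃ lam, lam = M / (m a + m b) := ⟨_, rfl⟩
  have hσn : |σ| = 1 := by
    have : |σ| * |σ| = 1 := by rw [← abs_mul, hσ, abs_one]
    nlinarith [abs_nonneg σ]
  have hmot := mot hx σ hσ
  have eq : ∀ t, lam • io ((x (σ * t)).1 c) = io (prel m (x (σ * t)).1 a b c) := fun t => by
    rw [prel_eq m hm M hM _ (hx.mem (σ * t)).2.1 a b c hab hca hcb lam hlam, map_smul]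
  have ev : ∀ t, lam • io ((σ : ℂ) * (x (σ * t)).2 c) = σ • io (prel m (x (σ * t)).2 a b c) := fun t => by
    rw [prel_eq m hm M hM _ (hx.mem (σ * t)).2.2 a b c hab hca hcb lam hlam, map_smul,
      ← Complex.real_smul, map_smul, smul_comm]
  have eq0 := eq 0
  have ev0 := ev 0
  simp only [mul_zero] at eq0 ev0
  have key := Pool.Agent.H239.NBS.escMot m hm M hM (energy m (x 0)) (by rw [hE0]; exact hE) _ _ _ _ hmot
    (fun s => com_io m _ (hx.mem (σ * s)).2.1)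
    (fun s => com_io m _ (by
      have h1 := (hx.mem (σ * s)).2.2
      have h2 : ∑ i, (m i : ℂ) * ((σ : ℂ) * (x (σ * s)).2 i) = (σ : ℂ) * ∑ i, (m i : ℂ) * (x (σ * s)).2 i := by
        rw [Finset.mul_sum]
        exact Finset.sum_congr rfl fun i _ => by ring
      rw [h2, h1, mul_zero])) a b c hab hca hcb lam hlam
    (by
      simp only [mul_zero]
      rw [eq0, ev0, inner_smul_right, io_inner]
      exact hP)
    (by simp only [mul_zero]; rw [eq0, io_sub, io_norm]; exact hr)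
    (by simp only [mul_zero]; rw [eq0, io_norm, hlam, hE0]; exact hK)
    (by
      simp only [mul_zero]
      rw [eq0, ev0, norm_smul, io_norm, io_norm, Real.norm_eq_abs, hσn, one_mul, hE0]
      exact hh)
  intro s hs
  have h := key s hs
  simp only [mul_zero] at h
  rw [eq0, ev0, eq s, io_norm, io_norm, inner_smul_right, io_inner] at h
  exact h

/-- a violation of the inequality with a nonzero radial velocity: not bounded -/
theorem notBdd (m : Fin 3 → ℝ) (hm : ∀ i, 0 < m i) (M : ℝ) (hM : ∑ i, m i = M)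
    {x : ℝ → Ph 3} (hx : IsSol m Set.univ x) (hb : Bdd x) (E : ℝ) (hE0 : energy m (x 0) = E) (hE : E < 0)
    (a b c : Fin 3) (hab : a ≠ b) (hca : c ≠ a) (hcb : c ≠ b)
    (hP : inner ℝ (prel m (x 0).1 a b c) (prel m (x 0).2 a b c) ≠ 0)
    (hr : ‖(x 0).1 a - (x 0).1 b‖ < ‖prel m (x 0).1 a b c‖ / 2)
    (hK : 40 * (m a * m b) * (M / (m a + m b)) ≤ ‖prel m (x 0).1 a b c‖ * (-E))
    (hh : 2 * M * (1 + 240 * (m a * m b / (‖prel m (x 0).1 a b c‖ * (-E))) ^ 2) <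
      ‖prel m (x 0).2 a b c‖ ^ 2 * ‖prel m (x 0).1 a b c‖) : False := by
  obtain ⟨σ, hσ, hP'⟩ : ∃ σ : ℝ, σ * σ = 1 ∧
      0 < σ * inner ℝ (prel m (x 0).1 a b c) (prel m (x 0).2 a b c) := by
    rcases lt_or_gt_of_ne hP with h | h
    · exact ⟨-1, by norm_num, by linarith⟩
    · exact ⟨1, by norm_num, by linarith⟩
  have key := escP m hm M hM hx E hE0 hE a b c hab hca hcb σ hσ hP' hr hK hh
  obtain ⟨R, hR⟩ := hb
  obtain ⟨p, hp⟩ : ∃ p, p = σ * inner ℝ (prel m (x 0).1 a b c) (prel m (x 0).2 a b c) := ⟨_, rfl⟩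
  rw [← hp] at key hP'
  have h1 := key (R ^ 2 / p) (by positivity)
  have h2 := prel_le m hm (x (σ * (R ^ 2 / p))).1 R (fun a b => hR _ a b) a b c
  have h3 : ‖prel m (x (σ * (R ^ 2 / p))).1 a b c‖ ^ 2 ≤ R ^ 2 := pow_le_pow_left₀ (norm_nonneg _) h2 2
  have h4 : 2 * p * (R ^ 2 / p) = 2 * R ^ 2 := by field_simp
  rw [h4] at h1
  have h5 := norm_nonneg ((x 0).1 a - (x 0).1 b)
  have h6 : 0 < ‖prel m (x 0).1 a b c‖ ^ 2 := by
    have : 0 < ‖prel m (x 0).1 a b c‖ := by linarith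
    positivity
  have h7 := sq_nonneg R
  linarith

/-- **the upper bound** -/
theorem outP0 (m : Fin 3 → ℝ) (hm : ∀ i, 0 < m i) (M : ℝ) (hM : ∑ i, m i = M)
    {x : ℝ → Ph 3} (hx : IsSol m Set.univ x) (hb : Bdd x) (E : ℝ) (hE0 : energy m (x 0) = E) (hE : E < 0)
    (a b c : Fin 3) (hab : a ≠ b) (hca : c ≠ a) (hcb : c ≠ b)
    (hr : ‖(x 0).1 a - (x 0).1 b‖ < ‖prel m (x 0).1 a b c‖ / 2)
    (hK : 40 * (m a * m b + m b * m c + m c * m a) < ‖prel m (x 0).1 a b c‖ * (-E)) :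
    ‖prel m (x 0).2 a b c‖ ^ 2 * ‖prel m (x 0).1 a b c‖ ≤
      2 * M * (1 + 240 * (m a * m b / (‖prel m (x 0).1 a b c‖ * (-E))) ^ 2) := by
  by_contra hcon
  push Not at hcon
  have hma := hm a
  have hmb := hm b
  have hmc := hm c
  have hMs : m a + m b + m c = M := by
    rw [← hM, Pool.Agent.Q85.UB.sum3 m a b c hab hca hcb]
  have hM0 : 0 < M := by rw [← hMs]; positivity
  have hE' : 0 < -E := by linarith
  have hpairs : 40 * (m a * m b) * (M / (m a + m b)) ≤ 40 * (m a * m b + m b * m c + m c * m a) := by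
    rw [← mul_div_assoc, div_le_iff₀ (by positivity), ← hMs]
    have h1 : 0 ≤ m c * (m a * m a) + m c * (m b * m b) + m a * m b * m c := by positivity
    nlinarith
  by_cases hP : inner ℝ (prel m (x 0).1 a b c) (prel m (x 0).2 a b c) = 0
  swap
  · exact notBdd m hm M hM hx hb E hE0 hE a b c hab hca hcb hP hr (hpairs.trans hK.le) hcon
  -- the radial velocity vanishes
  have hX0 : 0 < ‖prel m (x 0).1 a b c‖ := by
    have := norm_nonneg ((x 0).1 a - (x 0).1 b)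
    linarith
  obtain ⟨k1, -⟩ := accP m hm M hM (x 0) (hx.mem 0) a b c hab hca hcb _ _ rfl rfl hX0 hr.le
  obtain ⟨k2, -⟩ := tightP m hm M hM E hE (x 0) (hx.mem 0) hE0 a b c hab hca hcb _ rfl hX0 hr.le
    (by
      have : 0 < m a * m b + m b * m c + m c * m a := by positivity
      linarith)
  have hXd : ∀ t, HasDerivAt (fun s => prel m (x s).1 a b c) (prel m (x t).2 a b c) t := fun t =>
    prel_deriv m (fun s => (x s).1) _ t a b c (fun i => hasDerivAt_pos hx t i)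
  have hVd : ∀ t, HasDerivAt (fun s => prel m (x s).2 a b c) (prel m (fun i => acc m (x t).1 i) a b c) t := fun t =>
    prel_deriv m (fun s => (x s).2) _ t a b c (fun i => hasDerivAt_vel hx t i)
  have hPd := (hXd 0).inner ℝ (hVd 0)
  obtain ⟨X, hX⟩ : ∃ X, X = prel m (x 0).1 a b c := ⟨_, rfl⟩
  obtain ⟨V, hV⟩ : ∃ V, V = prel m (x 0).2 a b c := ⟨_, rfl⟩
  obtain ⟨Ac, hAc⟩ : ∃ Ac, Ac = prel m (fun i => acc m (x 0).1 i) a b c := ⟨_, rfl⟩
  obtain ⟨r, hrd⟩ : ∃ r, r = ‖(x 0).1 a - (x 0).1 b‖ := ⟨_, rfl⟩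
  rw [← hX, ← hV, ← hAc] at hPd
  rw [← hX, ← hAc, ← hrd] at k1
  rw [← hrd] at k2
  have hX0' := hX0
  have hK' := hK
  have hcon' := hcon
  rw [← hX] at hX0' hK' hcon'
  rw [← hV] at hcon'
  have hr0 : 0 ≤ r := by rw [hrd]; exact norm_nonneg _
  have hrR : 20 * r ≤ ‖X‖ := by
    have e1 : 20 * r ≤ 20 * (2 * (m a * m b) / (-E)) := by gcongr
    refine e1.trans ?_
    rw [← mul_div_assoc, div_le_iff₀ hE']
    have : 0 < m b * m c + m c * m a := by positivity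
    linarith
  have hdpos : 0 < inner ℝ X Ac + inner ℝ V V := by
    have hV2 : 2 * M / ‖X‖ < ‖V‖ ^ 2 := by
      rw [div_lt_iff₀ hX0']
      refine lt_of_le_of_lt ?_ hcon'
      have : 0 ≤ 240 * (m a * m b / (‖X‖ * (-E))) ^ 2 := by positivity
      nlinarith
    have e1 : inner ℝ X Ac = inner ℝ X (Ac + (M / ‖X‖ ^ 3) • X) - M / ‖X‖ := by
      rw [inner_add_right, inner_smul_right, real_inner_self_eq_norm_sq]
      field_simp
      ring
    have e2 := abs_real_inner_le_norm X (Ac + (M / ‖X‖ ^ 3) • X)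
    have e3 := neg_abs_le (inner ℝ X (Ac + (M / ‖X‖ ^ 3) • X))
    have e4 : ‖X‖ * ‖Ac + (M / ‖X‖ ^ 3) • X‖ ≤ ‖X‖ * (10 * M * r ^ 2 / ‖X‖ ^ 4) := by gcongr
    have e5 : ‖X‖ * (10 * M * r ^ 2 / ‖X‖ ^ 4) ≤ M / ‖X‖ := by
      have f1 : (20 * r) ^ 2 ≤ ‖X‖ ^ 2 := pow_le_pow_left₀ (by positivity) hrR 2
      have f2 : 10 * r ^ 2 ≤ ‖X‖ ^ 2 := by nlinarith [sq_nonneg r]
      calc ‖X‖ * (10 * M * r ^ 2 / ‖X‖ ^ 4) = M * (10 * r ^ 2) / ‖X‖ ^ 3 := by field_simp
        _ ≤ M * ‖X‖ ^ 2 / ‖X‖ ^ 3 := by gcongr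
        _ = _ := by field_simp
    have e6 : 2 * M / ‖X‖ = M / ‖X‖ + M / ‖X‖ := by ring
    rw [real_inner_self_eq_norm_sq, e1]
    linarith
  -- continuity
  have cX : Continuous fun s => prel m (x s).1 a b c :=
    continuous_iff_continuousAt.mpr fun t => (hXd t).continuousAt
  have cV : Continuous fun s => prel m (x s).2 a b c :=
    continuous_iff_continuousAt.mpr fun t => (hVd t).continuousAt
  have cq : ∀ i, Continuous fun s => (x s).1 i := fun i =>
    continuous_iff_continuousAt.mpr fun t => (hasDerivAt_pos hx t i).continuousAt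
  have ev2 : ∀ᶠ s in 𝓝 (0:ℝ), ‖(x s).1 a - (x s).1 b‖ < ‖prel m (x s).1 a b c‖ / 2 :=
    (((cq a).sub (cq b)).norm.continuousAt).eventually_lt (cX.norm.div_const 2).continuousAt hr
  have ev3 : ∀ᶠ s in 𝓝 (0:ℝ), 40 * (m a * m b + m b * m c + m c * m a) < ‖prel m (x s).1 a b c‖ * (-E) :=
    (cX.norm.mul continuous_const).continuousAt.eventually_const_lt hK
  have ev4 : ∀ᶠ s in 𝓝 (0:ℝ), 2 * M * (1 + 240 * (m a * m b / (‖prel m (x s).1 a b c‖ * (-E))) ^ 2) <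
      ‖prel m (x s).2 a b c‖ ^ 2 * ‖prel m (x s).1 a b c‖ := by
    refine ContinuousAt.eventually_lt ?_ ((cV.norm.pow 2).mul cX.norm).continuousAt hcon
    refine continuousAt_const.mul (continuousAt_const.add (continuousAt_const.mul
      (ContinuousAt.pow (continuousAt_const.div (cX.norm.mul continuous_const).continuousAt ?_) 2)))
    exact (mul_pos hX0 hE').ne'
  have evx : ∀ᶠ s in 𝓝[>] (0:ℝ), (‖(x s).1 a - (x s).1 b‖ < ‖prel m (x s).1 a b c‖ / 2 ∧
      40 * (m a * m b + m b * m c + m c * m a) < ‖prel m (x s).1 a b c‖ * (-E)) ∧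
      2 * M * (1 + 240 * (m a * m b / (‖prel m (x s).1 a b c‖ * (-E))) ^ 2) <
      ‖prel m (x s).2 a b c‖ ^ 2 * ‖prel m (x s).1 a b c‖ :=
    ((ev2.and ev3).and ev4).filter_mono nhdsWithin_le_nhds
  have evs : ∀ᶠ s in 𝓝[>] (0:ℝ), 0 <
      slope (fun s => inner ℝ (prel m (x s).1 a b c) (prel m (x s).2 a b c)) 0 s := by
    have h1 := (hasDerivAt_iff_tendsto_slope.1 hPd).eventually_const_lt hdpos
    exact h1.filter_mono (nhdsWithin_mono _ (fun y hy => ne_of_gt hy))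
  obtain ⟨s, ⟨⟨⟨hs1, hs2⟩, hs3⟩, hs4⟩, hs0⟩ := ((evx.and evs).and self_mem_nhdsWithin).exists
  have hs0' : 0 < s := hs0
  have hPs : 0 < inner ℝ (prel m (x s).1 a b c) (prel m (x s).2 a b c) := by
    rw [slope_def_field] at hs4
    simp only [hP, sub_zero] at hs4
    exact (div_pos_iff_of_pos_right hs0').1 hs4
  have hsh := hx.shift s
  refine notBdd m hm M hM hsh (by
    obtain ⟨R, hR⟩ := hb
    exact ⟨R, fun t a b => hR (t + s) a b⟩) E ?_ hE a b c hab hca hcb ?_ ?_ ?_ ?_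
  · show energy m (x (0 + s)) = E
    rw [energy_const hx (0 + s) 0, hE0]
  · simp only [zero_add]; exact hPs.ne'
  · simp only [zero_add]; exact hs1
  · simp only [zero_add]; exact hpairs.trans hs2.le
  · simp only [zero_add]; exact hs3

/-- **the upper bound** at any time -/
theorem outP (m : Fin 3 → ℝ) (hm : ∀ i, 0 < m i) (M : ℝ) (hM : ∑ i, m i = M)
    {x : ℝ → Ph 3} (hx : IsSol m Set.univ x) (hb : Bdd x) (E : ℝ) (hE0 : energy m (x 0) = E) (hE : E < 0)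
    (a b c : Fin 3) (hab : a ≠ b) (hca : c ≠ a) (hcb : c ≠ b) (t : ℝ)
    (hr : ‖(x t).1 a - (x t).1 b‖ < ‖prel m (x t).1 a b c‖ / 2)
    (hK : 40 * (m a * m b + m b * m c + m c * m a) < ‖prel m (x t).1 a b c‖ * (-E)) :
    ‖prel m (x t).2 a b c‖ ^ 2 * ‖prel m (x t).1 a b c‖ ≤
      2 * M * (1 + 240 * (m a * m b / (‖prel m (x t).1 a b c‖ * (-E))) ^ 2) := by
  have h := outP0 m hm M hM (hx.shift t) (by
    obtain ⟨R, hR⟩ := hb
    exact ⟨R, fun s a b => hR (s + t) a b⟩) E (by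
      show energy m (x (0 + t)) = E
      rw [energy_const hx (0 + t) 0, hE0]) hE a b c hab hca hcb
    (by simp only [zero_add]; exact hr) (by simp only [zero_add]; exact hK)
  simp only [zero_add] at h
  exact h

end Pool.Agent.H239.PBS
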