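import Pool.Agent.H239.PBS.LowP
import Pool.Agent.H239.NBS.Inner
import Pool.Graph.R_pool_sql_team_seeded_3997aac3.Q85.UB.Kick2

set_option autoImplicit false

/-! Changes of the velocities which lead to open sets without bounded solutions. -/

namespace Pool.Agent.H239.PBS

open Set Filter Topology Pool.Agent.W821.TB
open Pool.Agent.Q85.UB (io io_norm io_sub io_acc io_en prel Bdd kick kick_rel kick_sum kick_norm kick_diff
  energy_cont)
open Pool.Agent.Y516.NW (E3 Cfg Surf)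

theorem toSurf (m : Fin 3 → ℝ) (hm : ∀ i, 0 < m i) (z : Ph 3) (hz : z ∈ phaseSpace m) :
    ((fun i => io (z.1 i)), fun i => m i • io (z.2 i)) ∈ Surf m (energy m z) := by
  obtain ⟨h1, h2, h3⟩ := hz
  refine ⟨fun i j hij h => h1 i j hij ?_, com_io m _ h2, com_io m _ h3, ?_⟩
  · have h4 := io_sub (z.1 i) (z.1 j)
    simp only at h
    rw [h, sub_self, norm_zero] at h4
    exact sub_eq_zero.mp (norm_eq_zero.mp h4.symm)
  · rw [← io_en m z]
    congr 1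
    refine Finset.sum_congr rfl fun i _ => ?_
    have := hm i
    simp only
    rw [norm_smul, Real.norm_of_nonneg (hm i).le]
    field_simp

theorem exOut (m : Fin 3 → ℝ) (hm : ∀ i, 0 < m i) (M : ℝ) (hM : ∑ i, m i = M) (E : ℝ) (hE : E < 0)
    (z : Ph 3) (hz : z ∈ phaseSpace m) (hen : energy m z = E) (σ : ℝ)
    (hσ : ∀ a b c : Fin 3, a ≠ b → c ≠ a → c ≠ b → m a * m b + m b * m c + m c * m a = σ)
    (i j : Fin 3) (hij : 42 * σ < ‖z.1 i - z.1 j‖ * (-E)) :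
    ∃ a b c : Fin 3, a ≠ b ∧ c ≠ a ∧ c ≠ b ∧
      ‖z.1 a - z.1 b‖ < ‖prel m z.1 a b c‖ / 2 ∧ 40 * σ < ‖prel m z.1 a b c‖ * (-E) := by
  have hs := toSurf m hm z hz
  rw [hen] at hs
  obtain ⟨a, b, c, hab, hca, hcb, h1, h2⟩ := Pool.Agent.H239.NBS.exOuter m hm M hM E hE _ hs σ hσ i j
    (by simp only [io_sub]; exact hij)
  have e1 : (M / (m a + m b)) • io (z.1 c) = io (prel m z.1 a b c) := by
    rw [prel_eq m hm M hM z.1 hz.2.1 a b c hab hca hcb _ rfl, map_smul]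
  simp only [e1, io_norm, io_sub] at h1 h2
  exact ⟨a, b, c, hab, hca, hcb, by linarith, h2⟩

/-- the mutual distances are at most `3 |X| / 2` -/
theorem distLe (m : Fin 3 → ℝ) (hm : ∀ i, 0 < m i) (q : Fin 3 → ℂ) (a b c : Fin 3) (hab : a ≠ b)
    (hca : c ≠ a) (hcb : c ≠ b) (hr : ‖q a - q b‖ < ‖prel m q a b c‖ / 2) (i j : Fin 3) :
    ‖q i - q j‖ ≤ 3 / 2 * ‖prel m q a b c‖ := by
  have hma := hm a
  have hmb := hm b
  have hs : (0 : ℝ) < m a + m b := by positivity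
  have hsc : ((m a : ℂ) + (m b : ℂ)) ≠ 0 := by
    rw [← Complex.ofReal_add]
    exact Complex.ofReal_ne_zero.mpr hs.ne'
  have hX0 : 0 ≤ ‖prel m q a b c‖ := norm_nonneg _
  have e1 : q c - q a = prel m q a b c - ((m b / (m a + m b) : ℝ) : ℂ) * (q a - q b) := by
    unfold prel
    push_cast
    field_simp
    ring
  have e2 : q c - q b = prel m q a b c + ((m a / (m a + m b) : ℝ) : ℂ) * (q a - q b) := by
    unfold prel
    push_cast
    field_simp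
    ring
  have n1 : ‖((m b / (m a + m b) : ℝ) : ℂ) * (q a - q b)‖ ≤ ‖q a - q b‖ := by
    rw [norm_mul, Complex.norm_real, Real.norm_of_nonneg (by positivity)]
    refine mul_le_of_le_one_left (norm_nonneg _) ?_
    rw [div_le_one hs]; linarith
  have n2 : ‖((m a / (m a + m b) : ℝ) : ℂ) * (q a - q b)‖ ≤ ‖q a - q b‖ := by
    rw [norm_mul, Complex.norm_real, Real.norm_of_nonneg (by positivity)]
    refine mul_le_of_le_one_left (norm_nonneg _) ?_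
    rw [div_le_one hs]; linarith
  have d1 : ‖q c - q a‖ ≤ 3 / 2 * ‖prel m q a b c‖ := by
    rw [e1]
    refine (norm_sub_le _ _).trans ?_
    linarith
  have d2 : ‖q c - q b‖ ≤ 3 / 2 * ‖prel m q a b c‖ := by
    rw [e2]
    refine (norm_add_le _ _).trans ?_
    linarith
  have d3 : ‖q a - q b‖ ≤ 3 / 2 * ‖prel m q a b c‖ := by linarith
  have hi := Pool.Agent.Q130.NX.fin3 a b c hab hca hcb i
  have hj := Pool.Agent.Q130.NX.fin3 a b c hab hca hcb j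
  rcases hi with rfl | rfl | rfl <;> rcases hj with rfl | rfl | rfl
  · rw [sub_self, norm_zero]; positivity
  · exact d3
  · rw [norm_sub_rev]; exact d1
  · rw [norm_sub_rev]; exact d3
  · rw [sub_self, norm_zero]; positivity
  · rw [norm_sub_rev]; exact d2
  · exact d1
  · exact d2
  · rw [sub_self, norm_zero]; positivity

/-- the energy -/
theorem enP (m : Fin 3 → ℝ) (hm : ∀ i, 0 < m i) (M : ℝ) (hM : ∑ i, m i = M) (z : Ph 3)
    (hz : ∑ i, (m i : ℂ) * z.2 i = 0) (a b c : Fin 3) (hab : a ≠ b) (hca : c ≠ a) (hcb : c ≠ b) :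
    energy m z = (m a * m b / (m a + m b) * ‖z.2 a - z.2 b‖ ^ 2 +
      m c * (m a + m b) / M * ‖prel m z.2 a b c‖ ^ 2) / 2 - upot m z.1 := by
  have hma := hm a
  have hmb := hm b
  have hmc := hm c
  have hMs : m a + m b + m c = M := by
    rw [← hM, Pool.Agent.Q85.UB.sum3 m a b c hab hca hcb]
  have hM0 : 0 < M := by rw [← hMs]; positivity
  have hvs : m a • io (z.2 a) + (m b • io (z.2 b) + m c • io (z.2 c)) = 0 := by
    have := com_io m _ hz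
    rw [Pool.Agent.T6.H53.NB.sum3 _ a b c hab hca hcb] at this
    exact this
  have e1 := Pool.Agent.T6.H53.NB.split3' hma hmb _ _ _ hvs
  simp only [io_norm, ← map_sub] at e1
  unfold energy
  rw [Pool.Agent.Q85.UB.sum3 _ a b c hab hca hcb, prel_eq m hm M hM z.2 hz a b c hab hca hcb _ rfl,
    norm_smul, Real.norm_of_nonneg (by positivity)]
  have e2 : m c * (m a + m b) / M * (M / (m a + m b) * ‖z.2 c‖) ^ 2 =
      m c * (m a + m b + m c) / (m a + m b) * ‖z.2 c‖ ^ 2 := by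
    rw [hMs]
    field_simp
  rw [e2]
  congr 2
  linarith

/-- a set of states at which no bounded solution starts -/
def UU (m : Fin 3 → ℝ) (M : ℝ) (a b c : Fin 3) : Set (Ph 3) :=
  {y : Ph 3 | ∀ i j, i ≠ j → y.1 i ≠ y.1 j} ∩ {y | energy m y < 0 ∧
    ‖y.1 a - y.1 b‖ < ‖prel m y.1 a b c‖ / 2 ∧
    40 * (m a * m b + m b * m c + m c * m a) < ‖prel m y.1 a b c‖ * (-energy m y) ∧
    2 * M * ((‖prel m y.1 a b c‖ * (-energy m y)) ^ 2 + 240 * (m a * m b) ^ 2) <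
      ‖prel m y.2 a b c‖ ^ 2 * ‖prel m y.1 a b c‖ * (‖prel m y.1 a b c‖ * (-energy m y)) ^ 2}

theorem UU_open (m : Fin 3 → ℝ) (M : ℝ) (a b c : Fin 3) : IsOpen (UU m M a b c) := by
  have h1 : IsOpen {z : Ph 3 | ∀ i j, i ≠ j → z.1 i ≠ z.1 j} := by
    have : {z : Ph 3 | ∀ i j, i ≠ j → z.1 i ≠ z.1 j} = ⋂ i, ⋂ j, {z : Ph 3 | i ≠ j → z.1 i ≠ z.1 j} := by
      ext z; simp only [mem_iInter, mem_ofPred_eq]
    rw [this]
    refine isOpen_iInter_of_finite fun i => isOpen_iInter_of_finite fun j => ?_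
    by_cases h : i = j
    · simp [h]
    · simp only [ne_eq, h, not_false_eq_true, forall_const]
      exact isOpen_ne_fun (by fun_prop) (by fun_prop)
  have hp1 : Continuous fun z : Ph 3 => ‖prel m z.1 a b c‖ := by unfold prel; fun_prop
  have hp2 : Continuous fun z : Ph 3 => ‖prel m z.2 a b c‖ := by unfold prel; fun_prop
  have he := energy_cont m
  have c1 : ContinuousOn (fun z : Ph 3 => ‖prel m z.1 a b c‖ * (-energy m z))
      {z : Ph 3 | ∀ i j, i ≠ j → z.1 i ≠ z.1 j} := hp1.continuousOn.mul he.neg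
  have o1 := he.isOpen_inter_preimage h1 (isOpen_Iio (a := (0:ℝ)))
  have o2 : IsOpen {y : Ph 3 | ‖y.1 a - y.1 b‖ < ‖prel m y.1 a b c‖ / 2} :=
    isOpen_lt (by fun_prop) (hp1.div_const 2)
  have o3 := c1.isOpen_inter_preimage h1
    (isOpen_Ioi (a := 40 * (m a * m b + m b * m c + m c * m a)))
  have c4 : ContinuousOn (fun y : Ph 3 => ‖prel m y.2 a b c‖ ^ 2 * ‖prel m y.1 a b c‖ *
      (‖prel m y.1 a b c‖ * (-energy m y)) ^ 2 -
      2 * M * ((‖prel m y.1 a b c‖ * (-energy m y)) ^ 2 + 240 * (m a * m b) ^ 2))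
      {z : Ph 3 | ∀ i j, i ≠ j → z.1 i ≠ z.1 j} :=
    ((((hp2.pow 2).mul hp1).continuousOn).mul (c1.pow 2)).sub
      (continuousOn_const.mul ((c1.pow 2).add continuousOn_const))
  have o4 := c4.isOpen_inter_preimage h1 (isOpen_Ioi (a := (0:ℝ)))
  have : UU m M a b c = (({z : Ph 3 | ∀ i j, i ≠ j → z.1 i ≠ z.1 j} ∩ energy m ⁻¹' Iio 0) ∩
      {y : Ph 3 | ‖y.1 a - y.1 b‖ < ‖prel m y.1 a b c‖ / 2}) ∩
      (({z : Ph 3 | ∀ i j, i ≠ j → z.1 i ≠ z.1 j} ∩ (fun z : Ph 3 => ‖prel m z.1 a b c‖ * (-energy m z)) ⁻¹'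
        Ioi (40 * (m a * m b + m b * m c + m c * m a))) ∩
      ({z : Ph 3 | ∀ i j, i ≠ j → z.1 i ≠ z.1 j} ∩ (fun y : Ph 3 => ‖prel m y.2 a b c‖ ^ 2 *
        ‖prel m y.1 a b c‖ * (‖prel m y.1 a b c‖ * (-energy m y)) ^ 2 -
      2 * M * ((‖prel m y.1 a b c‖ * (-energy m y)) ^ 2 + 240 * (m a * m b) ^ 2)) ⁻¹' Ioi 0)) := by
    ext y
    unfold UU
    simp only [mem_inter_iff, mem_ofPred_eq, mem_preimage, mem_Iio, mem_Ioi, sub_pos]
    tauto
  rw [this]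
  exact (o1.inter o2).inter (o3.inter o4)

theorem UU_not (m : Fin 3 → ℝ) (hm : ∀ i, 0 < m i) (M : ℝ) (hM : ∑ i, m i = M)
    (a b c : Fin 3) (hab : a ≠ b) (hca : c ≠ a) (hcb : c ≠ b)
    {x : ℝ → Ph 3} (hx : IsSol m Set.univ x) (hU : x 0 ∈ UU m M a b c) : ¬ Bdd x := by
  intro hb
  obtain ⟨-, h1, h2, h3, h4⟩ := hU
  have hma := hm a
  have hmb := hm b
  have key := outP0 m hm M hM hx hb (energy m (x 0)) rfl h1 a b c hab hca hcb h2 h3
  have hX0 : 0 < ‖prel m (x 0).1 a b c‖ := by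
    have := norm_nonneg ((x 0).1 a - (x 0).1 b)
    linarith
  obtain ⟨y, hy⟩ : ∃ y, y = ‖prel m (x 0).1 a b c‖ * (-energy m (x 0)) := ⟨_, rfl⟩
  have hy0 : 0 < y := by
    rw [hy]
    have : 0 < -energy m (x 0) := by linarith
    positivity
  rw [← hy] at key h4
  have e1 : ‖prel m (x 0).2 a b c‖ ^ 2 * ‖prel m (x 0).1 a b c‖ * y ^ 2 ≤
      2 * M * (1 + 240 * (m a * m b / y) ^ 2) * y ^ 2 := by gcongr
  have e2 : 2 * M * (1 + 240 * (m a * m b / y) ^ 2) * y ^ 2 =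
      2 * M * (y ^ 2 + 240 * (m a * m b) ^ 2) := by field_simp
  linarith

theorem exUnit (V : ℂ) : ∃ u : ℂ, ‖u‖ = 1 ∧ V = (‖V‖ : ℂ) * u := by
  by_cases h : V = 0
  · exact ⟨1, by simp, by simp [h]⟩
  · refine ⟨V / (‖V‖ : ℂ), ?_, ?_⟩
    · have : ‖V‖ ≠ 0 := norm_ne_zero_iff.2 h
      rw [norm_div, Complex.norm_real, Real.norm_of_nonneg (norm_nonneg _)]
      exact div_self this
    · have : (‖V‖ : ℂ) ≠ 0 := Complex.ofReal_ne_zero.2 (norm_ne_zero_iff.2 h)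
      field_simp

theorem kickP (m : Fin 3 → ℝ) (hm : ∀ i, 0 < m i) (M : ℝ) (hM : ∑ i, m i = M) (z : Ph 3)
    (hz : z ∈ phaseSpace m) (E : ℝ) (hen : energy m z = E) (hE : E < 0)
    (a b c : Fin 3) (hab : a ≠ b) (hca : c ≠ a) (hcb : c ≠ b)
    (hr : ‖z.1 a - z.1 b‖ < ‖prel m z.1 a b c‖ / 2)
    (hK : 42 * (m a * m b + m b * m c + m c * m a) < ‖prel m z.1 a b c‖ * (-E)) (κ : ℝ) (hκ : 0 ≤ κ)
    (h1 : 2 * M * (1 + 260 * (m a * m b / (‖prel m z.1 a b c‖ * (-E))) ^ 2) <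
      (‖prel m z.2 a b c‖ + κ) ^ 2 * ‖prel m z.1 a b c‖)
    (h2 : (‖prel m z.2 a b c‖ + κ) ^ 2 * ‖prel m z.1 a b c‖ ≤ 12 / 5 * M) :
    ∃ z' ∈ phaseSpace m, z'.1 = z.1 ∧ (∀ i, ‖z'.2 i - z.2 i‖ ≤ κ) ∧ z' ∈ UU m M a b c := by
  have hma := hm a
  have hmb := hm b
  have hmc := hm c
  have hMs : m a + m b + m c = M := by
    rw [← hM, Pool.Agent.Q85.UB.sum3 m a b c hab hca hcb]
  have hM0 : 0 < M := by rw [← hMs]; positivity
  have hE' : 0 < -E := by linarith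
  obtain ⟨V, hV⟩ : ∃ V, V = prel m z.2 a b c := ⟨_, rfl⟩
  obtain ⟨ρ, hρ⟩ : ∃ ρ, ρ = ‖prel m z.1 a b c‖ := ⟨_, rfl⟩
  obtain ⟨u, hu, hVu⟩ := exUnit V
  obtain ⟨w, hw⟩ : ∃ w : ℂ, w = (κ : ℂ) * u := ⟨_, rfl⟩
  have hwn : ‖w‖ = κ := by rw [hw, norm_mul, hu, mul_one, Complex.norm_real, Real.norm_of_nonneg hκ]
  have hVw : ‖V + w‖ = ‖V‖ + κ := by
    have e1 : V + w = ((‖V‖ + κ : ℝ) : ℂ) * u := by
      rw [hw]
      nth_rewrite 1 [hVu]
      push_cast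
      ring
    rw [e1, norm_mul, hu, mul_one, Complex.norm_real, Real.norm_of_nonneg (by positivity)]
  have hp' : prel m (kick m c w z.2) a b c = V + w := by rw [kick_rel m hm a b c hca hcb, ← hV]
  have hcom : ∑ i, (m i : ℂ) * kick m c w z.2 i = 0 := by rw [kick_sum m hm]; exact hz.2.2
  have hρ0 : 0 < ρ := by
    have := norm_nonneg (z.1 a - z.1 b)
    rw [hρ]; linarith
  have hen' : energy m (z.1, kick m c w z.2) = E + m c * (m a + m b) / M * ((‖V‖ + κ) ^ 2 - ‖V‖ ^ 2) / 2 := by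
    rw [enP m hm M hM _ hcom a b c hab hca hcb, ← hen, enP m hm M hM z hz.2.2 a b c hab hca hcb]
    simp only
    rw [hp', hVw, ← hV]
    have e1 : ‖kick m c w z.2 a - kick m c w z.2 b‖ = ‖z.2 a - z.2 b‖ := by
      rw [kick_diff m b a c hcb hca]
    rw [e1]
    ring
  rw [← hV, ← hρ] at h1 h2
  rw [← hρ] at hr hK
  obtain ⟨E1, hE1⟩ : ∃ E1, E1 = energy m (z.1, kick m c w z.2) := ⟨_, rfl⟩
  rw [← hE1] at hen'
  -- the change of the energy
  have hch : ρ * (-E1) ≥ ρ * (-E) - 6 / 5 * (m c * (m a + m b)) := by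
    have e1 : m c * (m a + m b) / M * ((‖V‖ + κ) ^ 2 - ‖V‖ ^ 2) / 2 ≤
        m c * (m a + m b) / M * ((‖V‖ + κ) ^ 2) / 2 := by
      have : (‖V‖ + κ) ^ 2 - ‖V‖ ^ 2 ≤ (‖V‖ + κ) ^ 2 := by nlinarith [sq_nonneg ‖V‖]
      gcongr
    have e2 : m c * (m a + m b) / M * ((‖V‖ + κ) ^ 2) / 2 * ρ ≤ 6 / 5 * (m c * (m a + m b)) := by
      calc m c * (m a + m b) / M * ((‖V‖ + κ) ^ 2) / 2 * ρ =
            m c * (m a + m b) / M * ((‖V‖ + κ) ^ 2 * ρ) / 2 := by ring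
        _ ≤ m c * (m a + m b) / M * (12 / 5 * M) / 2 := by gcongr
        _ = _ := by field_simp; ring
    have e3 : m c * (m a + m b) / M * ((‖V‖ + κ) ^ 2 - ‖V‖ ^ 2) / 2 * ρ ≤
        m c * (m a + m b) / M * ((‖V‖ + κ) ^ 2) / 2 * ρ := by gcongr
    rw [hen']
    nlinarith
  have hab0 : 0 < m a * m b := by positivity
  have hch2 : 34 / 35 * (ρ * (-E)) ≤ ρ * (-E1) := by
    have : 42 * (m c * (m a + m b)) ≤ ρ * (-E) := by nlinarith
    linarith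
  have hy0 : 0 < ρ * (-E) := by positivity
  have hy1 : 0 < ρ * (-E1) := by linarith
  have hE1n : E1 < 0 := by
    by_contra hcon
    have : ρ * (-E1) ≤ 0 := mul_nonpos_of_nonneg_of_nonpos hρ0.le (by linarith)
    linarith
  refine ⟨(z.1, kick m c w z.2), ⟨hz.1, hz.2.1, hcom⟩, rfl, fun i => ?_, hz.1, ?_⟩
  · have := kick_norm m hm c w z.2 i
    rw [hwn] at this
    exact this
  · show energy m (z.1, kick m c w z.2) < 0 ∧ ‖z.1 a - z.1 b‖ < ‖prel m z.1 a b c‖ / 2 ∧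
      40 * (m a * m b + m b * m c + m c * m a) < ‖prel m z.1 a b c‖ * (-energy m (z.1, kick m c w z.2)) ∧
      2 * M * ((‖prel m z.1 a b c‖ * (-energy m (z.1, kick m c w z.2))) ^ 2 + 240 * (m a * m b) ^ 2) <
        ‖prel m (kick m c w z.2) a b c‖ ^ 2 * ‖prel m z.1 a b c‖ *
          (‖prel m z.1 a b c‖ * (-energy m (z.1, kick m c w z.2))) ^ 2
    rw [← hE1, ← hρ, hp', hVw]
    refine ⟨hE1n, hr, ?_, ?_⟩
    · nlinarith
    · obtain ⟨y, hy⟩ : ∃ y, y = ρ * (-E) := ⟨_, rfl⟩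
      obtain ⟨y', hy'⟩ : ∃ y', y' = ρ * (-E1) := ⟨_, rfl⟩
      rw [← hy] at h1 hch2 hy0
      rw [← hy'] at hch2 hy1 ⊢
      have e1 : y ^ 2 * (34 / 35) ^ 2 ≤ y' ^ 2 := by
        rw [← mul_pow]
        exact pow_le_pow_left₀ (by positivity) (by linarith) 2
      have e2 : 2 * M * (y ^ 2 + 260 * (m a * m b) ^ 2) < (‖V‖ + κ) ^ 2 * ρ * y ^ 2 := by
        have e3 : 2 * M * (1 + 260 * (m a * m b / y) ^ 2) * y ^ 2 < (‖V‖ + κ) ^ 2 * ρ * y ^ 2 := by gcongr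
        have e4 : 2 * M * (1 + 260 * (m a * m b / y) ^ 2) * y ^ 2 =
          2 * M * (y ^ 2 + 260 * (m a * m b) ^ 2) := by field_simp
        linarith
      -- divide by `y ^ 2`
      obtain ⟨q, hq⟩ : ∃ q, q = (‖V‖ + κ) ^ 2 * ρ := ⟨_, rfl⟩
      rw [← hq] at e2 ⊢
      have e5 : 2 * M * 260 * (m a * m b) ^ 2 < (q - 2 * M) * y ^ 2 := by linarith
      have hq2 : 0 < q - 2 * M := by
        by_contra hcon
        have h3 : (q - 2 * M) * y ^ 2 ≤ 0 := mul_nonpos_of_nonpos_of_nonneg (not_lt.1 hcon) (by positivity)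
        have h4 : 0 < 2 * M * 260 * (m a * m b) ^ 2 := by positivity
        linarith
      have e6 : (q - 2 * M) * (y ^ 2 * (34 / 35) ^ 2) ≤ (q - 2 * M) * y' ^ 2 := by gcongr
      have e7 : 2 * M * 240 * (m a * m b) ^ 2 ≤ 2 * M * 260 * (m a * m b) ^ 2 * (34 / 35) ^ 2 := by
        have : 0 ≤ M * (m a * m b) ^ 2 := by positivity
        nlinarith
      have e8 : 2 * M * 260 * (m a * m b) ^ 2 * (34 / 35) ^ 2 < (q - 2 * M) * y ^ 2 * (34 / 35) ^ 2 := by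
        gcongr
      nlinarith

end Pool.Agent.H239.PBS
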