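import Pool.Agent.H239.NBS.Abs

set_option autoImplicit false

/-! The outer energy in the phase in which the outer body moves away: the scalar inequalities. -/

namespace Pool.Agent.H239.PBS

open Set Filter Topology

theorem algL (ρ P V A B M D Lm : ℝ) (hρ : 0 < ρ) (hP : 0 ≤ P) (hM : 0 < M) (hD : 0 ≤ D)
    (hL : 0 ≤ Lm) (hL2 : ρ ^ 2 * V - P ^ 2 ≤ Lm ^ 2) (hLM : Lm ^ 2 ≤ M * ρ / 4)
    (hA : A ≤ -(3 / 4 * (M / ρ))) (hB : |B + M * P / ρ ^ 3| ≤ Real.sqrt V * (D / ρ ^ 4)) :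
    B + M * P / ρ ^ 3 - D * P / ρ ^ 5 + 2 * D * Lm / M * ((V + A) / ρ ^ 4 - 4 * P ^ 2 / ρ ^ 6) ≤ 0 := by
  have h1 : Real.sqrt V ≤ (P + Lm) / ρ := by
    rw [Real.sqrt_le_left (by positivity), div_pow, le_div_iff₀ (by positivity)]
    nlinarith [mul_nonneg hP hL]
  have h2 : B + M * P / ρ ^ 3 ≤ (P + Lm) / ρ * (D / ρ ^ 4) :=
    (le_abs_self _).trans (hB.trans (by gcongr))
  have h3 : (P + Lm) / ρ * (D / ρ ^ 4) = D * P / ρ ^ 5 + D * Lm / ρ ^ 5 := by field_simp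
  have h4 : (V + A) / ρ ^ 4 - 4 * P ^ 2 / ρ ^ 6 ≤ -(M / 2 / ρ ^ 5) := by
    have e1 : (V + A) / ρ ^ 4 - 4 * P ^ 2 / ρ ^ 6 = (ρ ^ 2 * V - P ^ 2 - 3 * P ^ 2 + ρ ^ 2 * A) / ρ ^ 6 := by
      field_simp
      ring
    have e2 : ρ ^ 2 * A ≤ ρ ^ 2 * -(3 / 4 * (M / ρ)) := by gcongr
    have e3 : ρ ^ 2 * -(3 / 4 * (M / ρ)) = -(3 / 4 * (M * ρ)) := by field_simp
    have e4 : -(M / 2 / ρ ^ 5) = (-(M * ρ / 2)) / ρ ^ 6 := by field_simp
    rw [e1, e4]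
    gcongr
    have := sq_nonneg P
    linarith
  have h5 : 2 * D * Lm / M * ((V + A) / ρ ^ 4 - 4 * P ^ 2 / ρ ^ 6) ≤ 2 * D * Lm / M * -(M / 2 / ρ ^ 5) := by
    gcongr
  have h6 : 2 * D * Lm / M * -(M / 2 / ρ ^ 5) = -(D * Lm / ρ ^ 5) := by field_simp
  linarith

theorem lowAbs (ρ P V A B : ℝ → ℝ) (M D Lm T : ℝ) (hM : 0 < M) (hD : 0 ≤ D) (hL : 0 ≤ Lm) (hT : 0 ≤ T)
    (hρ0 : ∀ t ∈ Icc 0 T, 0 < ρ t)
    (hρ : ∀ t ∈ Icc 0 T, HasDerivAt ρ (P t / ρ t) t)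
    (hP : ∀ t ∈ Icc 0 T, HasDerivAt P (V t + A t) t)
    (hV : ∀ t ∈ Icc 0 T, HasDerivAt V (2 * B t) t)
    (hP0 : ∀ t ∈ Icc 0 T, 0 ≤ P t) (hV0 : ∀ t ∈ Icc 0 T, 0 ≤ V t)
    (hL2 : ∀ t ∈ Icc 0 T, ρ t ^ 2 * V t - P t ^ 2 ≤ Lm ^ 2)
    (hLM : ∀ t ∈ Icc 0 T, Lm ^ 2 ≤ M * ρ t / 4)
    (hA : ∀ t ∈ Icc 0 T, A t ≤ -(3 / 4 * (M / ρ t)))
    (hB : ∀ t ∈ Icc 0 T, |B t + M * P t / ρ t ^ 3| ≤ Real.sqrt (V t) * (D / ρ t ^ 4)) :
    -(M / ρ T) ≤ V 0 / 2 - M / ρ 0 + D / 3 / ρ 0 ^ 3 + 2 * D * Lm / M * (P 0 / ρ 0 ^ 4) := by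
  obtain ⟨Φ, hΦ⟩ : ∃ Φ : ℝ → ℝ, Φ = fun t => V t / 2 - M / ρ t + D / 3 / ρ t ^ 3 +
    2 * D * Lm / M * (P t / ρ t ^ 4) := ⟨_, rfl⟩
  have hd : ∀ t ∈ Icc 0 T, HasDerivAt Φ (B t + M * P t / ρ t ^ 3 - D * P t / ρ t ^ 5 +
      2 * D * Lm / M * ((V t + A t) / ρ t ^ 4 - 4 * P t ^ 2 / ρ t ^ 6)) t := by
    intro t ht
    have h0 := hρ0 t ht
    have e1 := ((hV t ht).div_const 2).sub ((hasDerivAt_const t M).div (hρ t ht) h0.ne')
    have e2 := (hasDerivAt_const t (D / 3)).div ((hρ t ht).pow 3) (pow_ne_zero 3 h0.ne')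
    have e3 := ((hP t ht).div ((hρ t ht).pow 4) (pow_ne_zero 4 h0.ne')).const_mul (2 * D * Lm / M)
    have e4 := (e1.add e2).add e3
    rw [hΦ]
    refine e4.congr_deriv ?_
    simp only [Pi.pow_apply]
    field_simp
    ring
  have hmono : AntitoneOn Φ (Icc 0 T) := by
    refine antitoneOn_of_deriv_nonpos (convex_Icc 0 T)
      (fun t ht => (hd t ht).continuousAt.continuousWithinAt)
      (fun t ht => (hd t (interior_subset ht)).differentiableAt.differentiableWithinAt) ?_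
    intro t ht
    have ht' := interior_subset ht
    rw [(hd t ht').deriv]
    exact algL (ρ t) (P t) (V t) (A t) (B t) M D Lm (hρ0 t ht') (hP0 t ht') hM hD hL
      (hL2 t ht') (hLM t ht') (hA t ht') (hB t ht')
  have h1 := hmono ⟨le_rfl, hT⟩ ⟨hT, le_rfl⟩ hT
  rw [hΦ] at h1
  simp only at h1
  have hTm : T ∈ Icc 0 T := ⟨hT, le_rfl⟩
  have g1 := hρ0 T hTm
  have g2 := hP0 T hTm
  have g3 := hV0 T hTm
  have g4 : 0 ≤ D / 3 / ρ T ^ 3 := by positivity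
  have g5 : 0 ≤ 2 * D * Lm / M * (P T / ρ T ^ 4) := by positivity
  linarith

theorem growOn (g g' : ℝ → ℝ) (S C : ℝ) (hg : ∀ s ∈ Icc 0 S, HasDerivAt g (g' s) s)
    (hC : ∀ s ∈ Icc 0 S, C ≤ g' s) (s : ℝ) (hs : s ∈ Icc 0 S) : C * s ≤ g s - g 0 := by
  have hsub : Icc 0 s ⊆ Icc 0 S := Icc_subset_Icc le_rfl hs.2
  have h := Convex.mul_sub_le_image_sub_of_le_deriv (convex_Icc 0 s)
    (fun t ht => (hg t (hsub ht)).continuousAt.continuousWithinAt)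
    (fun t ht => (hg t (hsub (interior_subset ht))).differentiableAt.differentiableWithinAt)
    (fun t ht => by
      rw [(hg t (hsub (interior_subset ht))).deriv]
      exact hC t (hsub (interior_subset ht))) 0 ⟨le_rfl, hs.1⟩ s ⟨hs.1, le_rfl⟩ hs.1
  simpa using h

/-- the outer body which moves away came from the distance `ρ₀` -/
theorem reachAbs (f Y r : ℝ → ℝ) (Y' : ℝ → ℝ) (ρ₀ M : ℝ) (hM : 0 < M) (hρ₀ : 0 < ρ₀) (hf : Continuous f)
    (hr : Continuous r) (h0 : ρ₀ ≤ f 0) (hY0 : 0 ≤ Y 0) (hr0 : r 0 < f 0 / 2)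
    (hfd : ∀ s, 0 < f s → HasDerivAt f (-Y s) s)
    (hYd : ∀ s, 0 < f s → HasDerivAt Y (Y' s) s)
    (htight : ∀ s, ρ₀ ≤ f s → r s ≤ f s / 2 → r s < f s / 2)
    (hY' : ∀ s, ρ₀ ≤ f s → r s ≤ f s / 2 → M / 2 / f s ^ 2 ≤ Y' s) :
    ∃ S, 0 ≤ S ∧ f S = ρ₀ ∧ ∀ s ∈ Icc 0 S, ρ₀ ≤ f s ∧ 0 ≤ Y s ∧ r s < f s / 2 := by
  -- the phase
  have phase : ∀ S, 0 ≤ S → (∀ s ∈ Icc 0 S, ρ₀ ≤ f s) → ∀ s ∈ Icc 0 S, 0 ≤ Y s ∧ r s < f s / 2 ∧
      f s ≤ f 0 ∧ M / 2 / f 0 ^ 2 * s ≤ Y s := by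
    intro S hS hall
    have hb := Pool.Agent.H239.NBS.boot (fun (_ : Unit) s => f (min s S) / 2 - r (min s S))
      (fun _ => ((hf.comp (continuous_id.min continuous_const)).div_const 2).sub
        (hr.comp (continuous_id.min continuous_const)))
      (fun _ => by
        show 0 < f (min 0 S) / 2 - r (min 0 S)
        rw [min_eq_left hS]
        linarith)
      (fun T hT h _ => by
        have h1 : 0 ≤ f (min T S) / 2 - r (min T S) := h T hT le_rfl ()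
        have h2 : min T S ∈ Icc 0 S := ⟨le_min hT hS, min_le_right _ _⟩
        have h3 := htight (min T S) (hall _ h2) (by linarith)
        show 0 < f (min T S) / 2 - r (min T S)
        linarith)
    have ht : ∀ s ∈ Icc 0 S, r s < f s / 2 := by
      intro s hs
      have h1 : 0 < f (min s S) / 2 - r (min s S) := hb s hs.1 ()
      rw [min_eq_left hs.2] at h1
      linarith
    have hpos : ∀ s ∈ Icc 0 S, 0 < f s := fun s hs => hρ₀.trans_le (hall s hs)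
    have hYs : ∀ s ∈ Icc 0 S, HasDerivAt Y (Y' s) s := fun s hs => hYd s (hpos s hs)
    have hY1 : ∀ s ∈ Icc 0 S, M / 2 / f s ^ 2 ≤ Y' s := fun s hs => hY' s (hall s hs) (ht s hs).le
    have hYnn : ∀ s ∈ Icc 0 S, 0 ≤ Y s := by
      intro s hs
      have h1 := growOn Y Y' S 0 hYs (fun s hs => by
        have h2 := hpos s hs
        exact (by positivity : (0:ℝ) ≤ M / 2 / f s ^ 2).trans (hY1 s hs)) s hs
      linarith
    have hfle : ∀ s ∈ Icc 0 S, f s ≤ f 0 := by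
      intro s hs
      have h1 := growOn (fun s => -f s) (fun s => - -Y s) S 0 (fun s hs => (hfd s (hpos s hs)).neg)
        (fun s hs => by rw [neg_neg]; exact hYnn s hs) s hs
      linarith
    intro s hs
    refine ⟨hYnn s hs, ht s hs, hfle s hs, ?_⟩
    have h1 := growOn Y Y' S (M / 2 / f 0 ^ 2) hYs (fun s hs => by
      refine le_trans ?_ (hY1 s hs)
      have h2 := hpos s hs
      have h3 := hfle s hs
      gcongr) s hs
    linarith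
  have hf0 : 0 < f 0 := hρ₀.trans_le h0
  by_cases hcr : ∃ s, 0 ≤ s ∧ f s ≤ ρ₀
  swap
  · exfalso
    push Not at hcr
    obtain ⟨c, hc⟩ : ∃ c, c = M / 2 / f 0 ^ 2 := ⟨_, rfl⟩
    have hc0 : 0 < c := by rw [hc]; positivity
    obtain ⟨S, hS⟩ : ∃ S, S = 2 * f 0 / c + 1 := ⟨_, rfl⟩
    have hS1 : 1 ≤ S := by
      rw [hS]
      have : 0 ≤ 2 * f 0 / c := by positivity
      linarith
    have hph := phase S (by linarith) (fun s hs => (hcr s hs.1).le)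
    rw [← hc] at hph
    have hd : ∀ s ∈ Icc 0 S, HasDerivAt (fun s => -f s - c * (s ^ 2 / 2)) (- -Y s - c * s) s := by
      intro s hs
      have h1 := (hfd s (hρ₀.trans (hcr s hs.1))).neg
      have h2 : HasDerivAt (fun s : ℝ => c * (s ^ 2 / 2)) (c * s) s := by
        have := ((hasDerivAt_pow 2 s).div_const 2).const_mul c
        refine this.congr_deriv ?_
        norm_num
      exact h1.sub h2
    have h1 := growOn _ _ S 0 hd (fun s hs => by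
      have := (hph s hs).2.2.2
      linarith) S ⟨by linarith, le_rfl⟩
    have h2 := hcr S (by linarith)
    have h3 : f 0 < c * (S ^ 2 / 2) := by
      have e1 : S ≤ S ^ 2 := by nlinarith
      have e2 : c * (S / 2) ≤ c * (S ^ 2 / 2) := by gcongr
      have e3 : c * (S / 2) = f 0 + c / 2 := by rw [hS]; field_simp
      linarith
    nlinarith
  · obtain ⟨s0, hs0, hfs0⟩ := hcr
    obtain ⟨Z, hZ⟩ : ∃ Z : Set ℝ, Z = Ici 0 ∩ {s | f s ≤ ρ₀} := ⟨_, rfl⟩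
    have hcl : IsClosed Z := by
      rw [hZ]
      exact isClosed_Ici.inter (isClosed_le hf continuous_const)
    have hne : Z.Nonempty := by
      rw [hZ]
      exact ⟨s0, hs0, hfs0⟩
    have hbd : BddBelow Z := by
      rw [hZ]
      exact ⟨0, fun x hx => hx.1⟩
    have hSm := hcl.csInf_mem hne hbd
    obtain ⟨S, hS⟩ : ∃ S, S = sInf Z := ⟨_, rfl⟩
    rw [← hS] at hSm
    have hlow : ∀ s, 0 ≤ s → s < S → ρ₀ < f s := by
      intro s hs hsS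
      by_contra hcon
      have h1 : s ∈ Z := by
        rw [hZ]
        exact ⟨hs, not_lt.1 hcon⟩
      have h2 := csInf_le hbd h1
      rw [← hS] at h2
      linarith
    rw [hZ] at hSm
    have hS0 : 0 ≤ S := hSm.1
    have hSle : f S ≤ ρ₀ := hSm.2
    have hSge : ρ₀ ≤ f S := by
      rcases hS0.eq_or_lt with h | h
      · rw [← h]; exact h0
      · have h2 : closure (Ico 0 S) ⊆ {t | ρ₀ ≤ f t} :=
          closure_minimal (fun u hu => (hlow u hu.1 hu.2).le) (isClosed_le continuous_const hf)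
        rw [closure_Ico h.ne] at h2
        exact h2 ⟨hS0, le_rfl⟩
    have hall : ∀ s ∈ Icc 0 S, ρ₀ ≤ f s := by
      intro s hs
      rcases hs.2.eq_or_lt with h | h
      · rw [h]; exact hSge
      · exact (hlow s hs.1 h).le
    refine ⟨S, hS0, le_antisymm hSle hSge, fun s hs => ?_⟩
    obtain ⟨h1, h2, -, -⟩ := phase S hS0 hall s hs
    exact ⟨hall s hs, h1, h2⟩

end Pool.Agent.H239.PBS
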