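import Pool.Agent.H239.PBS.Dyn
import Pool.Agent.H239.PBS.Low

set_option autoImplicit false

/-! The outer energy of the bounded solutions of the planar three-body problem: the lower bound. -/

namespace Pool.Agent.H239.PBS

open Set Filter Topology Pool.Agent.W821.TB
open Pool.Agent.Q85.UB (prel Bdd)

theorem im_sq (X V : ℂ) : ‖X‖ ^ 2 * ‖V‖ ^ 2 - (inner ℝ X V) ^ 2 = ((starRingEnd ℂ) X * V).im ^ 2 := by
  rw [Complex.inner, ← Complex.normSq_eq_norm_sq, ← Complex.normSq_eq_norm_sq, Complex.normSq_apply,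
    Complex.normSq_apply]
  simp only [Complex.mul_re, Complex.mul_im, Complex.conj_re, Complex.conj_im]
  ring

/-- the facts used about a hierarchical state -/
theorem facts (m : Fin 3 → ℝ) (hm : ∀ i, 0 < m i) (M : ℝ) (hM : ∑ i, m i = M) (E : ℝ) (hE : E < 0)
    (z : Ph 3) (hz : z ∈ phaseSpace m) (hen : energy m z = E) (J : ℝ) (hJ : |ang m z| ≤ J)
    (a b c : Fin 3) (hab : a ≠ b)
    (hca : c ≠ a) (hcb : c ≠ b) (X V Ac : ℂ) (hX : X = prel m z.1 a b c) (hV : V = prel m z.2 a b c)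
    (hA : Ac = prel m (fun i => acc m z.1 i) a b c) (ρ₀ : ℝ) (hρ₀ : 0 < ρ₀) (h0 : ρ₀ ≤ ‖X‖)
    (hr : ‖z.1 a - z.1 b‖ ≤ ‖X‖ / 2) (hK : 40 * (m a * m b + m b * m c + m c * m a) ≤ ρ₀ * (-E))
    (hJρ : 8 * M * (J ^ 2 + 4 * (m a * m b) ^ 3 / ((m a + m b) * (-E))) / (m c * (m a + m b)) ^ 2 ≤ ρ₀) :
    20 * ‖z.1 a - z.1 b‖ ≤ ‖X‖ ∧ inner ℝ X Ac ≤ -(3 / 4 * (M / ‖X‖)) ∧
      |inner ℝ V Ac + M * inner ℝ X V / ‖X‖ ^ 3| ≤
        Real.sqrt (‖V‖ ^ 2) * (10 * M * (2 * (m a * m b) / (-E)) ^ 2 / ‖X‖ ^ 4) ∧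
      ‖X‖ ^ 2 * ‖V‖ ^ 2 - (inner ℝ X V) ^ 2 ≤ M * ρ₀ / 4 := by
  have hma := hm a
  have hmb := hm b
  have hmc := hm c
  have hMs : m a + m b + m c = M := by
    rw [← hM, Pool.Agent.Q85.UB.sum3 m a b c hab hca hcb]
  have hM0 : 0 < M := by rw [← hMs]; positivity
  have hE' : 0 < -E := by linarith
  have hX0 : 0 < ‖X‖ := hρ₀.trans_le h0
  have hKX : 40 * (m a * m b + m b * m c + m c * m a) ≤ ‖X‖ * (-E) := hK.trans (by gcongr)
  obtain ⟨k1, -⟩ := accP m hm M hM z hz a b c hab hca hcb X Ac hX hA hX0 hr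
  obtain ⟨k2, k3⟩ := tightP m hm M hM E hE z hz hen a b c hab hca hcb X hX hX0 hr
    (by
      have : 0 < m a * m b + m b * m c + m c * m a := by positivity
      linarith)
  obtain ⟨r, hrd⟩ : ∃ r, r = ‖z.1 a - z.1 b‖ := ⟨_, rfl⟩
  have k4 := angP m hm M hM z hz a b c hab hca hcb X V hX hV
  have k5 : |((starRingEnd ℂ) (z.1 a - z.1 b) * (z.2 a - z.2 b)).im| ≤ r * ‖z.2 a - z.2 b‖ := by
    refine (Complex.abs_im_le_norm _).trans ?_
    rw [norm_mul, Complex.norm_conj, hrd]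
  rw [← hrd] at hr k1 k2 k3 ⊢
  have hr0 : 0 ≤ r := by rw [hrd]; exact norm_nonneg _
  have hrR : 20 * r ≤ ‖X‖ := by
    have e1 : 20 * r ≤ 20 * (2 * (m a * m b) / (-E)) := by gcongr
    refine e1.trans ?_
    rw [← mul_div_assoc, div_le_iff₀ hE']
    have : 0 < m b * m c + m c * m a := by positivity
    linarith
  refine ⟨hrR, ?_, ?_, ?_⟩
  · have e1 : inner ℝ X Ac = inner ℝ X (Ac + (M / ‖X‖ ^ 3) • X) - M / ‖X‖ := by
      rw [inner_add_right, inner_smul_right, real_inner_self_eq_norm_sq]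
      field_simp
      ring
    have e2 := real_inner_le_norm X (Ac + (M / ‖X‖ ^ 3) • X)
    have e4 : ‖X‖ * ‖Ac + (M / ‖X‖ ^ 3) • X‖ ≤ ‖X‖ * (10 * M * r ^ 2 / ‖X‖ ^ 4) := by gcongr
    have e5 : ‖X‖ * (10 * M * r ^ 2 / ‖X‖ ^ 4) ≤ 1 / 4 * (M / ‖X‖) := by
      have f1 : (20 * r) ^ 2 ≤ ‖X‖ ^ 2 := pow_le_pow_left₀ (by positivity) hrR 2
      have f2 : 10 * r ^ 2 ≤ 1 / 4 * ‖X‖ ^ 2 := by nlinarith [sq_nonneg r]
      calc ‖X‖ * (10 * M * r ^ 2 / ‖X‖ ^ 4) = M * (10 * r ^ 2) / ‖X‖ ^ 3 := by field_simp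
        _ ≤ M * (1 / 4 * ‖X‖ ^ 2) / ‖X‖ ^ 3 := by gcongr
        _ = _ := by field_simp
    rw [e1]
    linarith
  · have e1 : inner ℝ V Ac + M * inner ℝ X V / ‖X‖ ^ 3 = inner ℝ V (Ac + (M / ‖X‖ ^ 3) • X) := by
      rw [inner_add_right, inner_smul_right, real_inner_comm X V]
      ring
    rw [e1, Real.sqrt_sq (norm_nonneg _)]
    refine (abs_real_inner_le_norm _ _).trans ?_
    have e2 : 10 * M * r ^ 2 / ‖X‖ ^ 4 ≤ 10 * M * (2 * (m a * m b) / (-E)) ^ 2 / ‖X‖ ^ 4 := by gcongr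
    gcongr
    exact k1.trans e2
  · rw [im_sq]
    obtain ⟨l, hl⟩ : ∃ l, l = ((starRingEnd ℂ) X * V).im := ⟨_, rfl⟩
    obtain ⟨l', hl'⟩ : ∃ l', l' = ((starRingEnd ℂ) (z.1 a - z.1 b) * (z.2 a - z.2 b)).im := ⟨_, rfl⟩
    obtain ⟨w, hw⟩ : ∃ w, w = ‖z.2 a - z.2 b‖ := ⟨_, rfl⟩
    rw [← hl]
    rw [← hl, ← hl'] at k4
    rw [← hl', ← hw] at k5
    rw [← hw] at k3
    have hw0 : 0 ≤ w := by rw [hw]; exact norm_nonneg _
    have g1 : l' ^ 2 ≤ 2 * (m a * m b) / (-E) * (2 * (m a + m b)) := by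
      have e1 : l' ^ 2 ≤ (r * w) ^ 2 := by
        rw [← sq_abs l']
        exact pow_le_pow_left₀ (abs_nonneg _) k5 2
      calc l' ^ 2 ≤ (r * w) ^ 2 := e1
        _ = r * (w ^ 2 * r) := by ring
        _ ≤ _ := by gcongr
    have g2 : ang m z ^ 2 ≤ J ^ 2 := by
      rw [← sq_abs]
      exact pow_le_pow_left₀ (abs_nonneg _) hJ 2
    have g3 : (m c * (m a + m b) / M * l) ^ 2 ≤ 2 * J ^ 2 + 2 * (m a * m b / (m a + m b)) ^ 2 * l' ^ 2 := by
      have e1 : m c * (m a + m b) / M * l = ang m z - m a * m b / (m a + m b) * l' := by linarith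
      rw [e1]
      nlinarith [sq_nonneg (ang m z + m a * m b / (m a + m b) * l')]
    have g4 : (m c * (m a + m b) / M * l) ^ 2 ≤ 2 * (J ^ 2 + 4 * (m a * m b) ^ 3 / ((m a + m b) * (-E))) := by
      refine g3.trans ?_
      have e1 : 2 * (m a * m b / (m a + m b)) ^ 2 * l' ^ 2 ≤ 2 * (m a * m b / (m a + m b)) ^ 2 *
          (2 * (m a * m b) / (-E) * (2 * (m a + m b))) := by gcongr
      have e2 : 2 * (m a * m b / (m a + m b)) ^ 2 * (2 * (m a * m b) / (-E) * (2 * (m a + m b))) =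
          2 * (4 * (m a * m b) ^ 3 / ((m a + m b) * (-E))) := by
        field_simp
        ring
      rw [e2] at e1
      linarith
    obtain ⟨Q, hQ⟩ : ∃ Q, Q = J ^ 2 + 4 * (m a * m b) ^ 3 / ((m a + m b) * (-E)) := ⟨_, rfl⟩
    rw [← hQ] at g4 hJρ
    have g5 : l ^ 2 = (m c * (m a + m b) / M * l) ^ 2 * M ^ 2 / (m c * (m a + m b)) ^ 2 := by field_simp
    rw [g5]
    calc (m c * (m a + m b) / M * l) ^ 2 * M ^ 2 / (m c * (m a + m b)) ^ 2 ≤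
          2 * Q * M ^ 2 / (m c * (m a + m b)) ^ 2 := by gcongr
      _ = M * (8 * M * Q / (m c * (m a + m b)) ^ 2) / 4 := by ring
      _ ≤ _ := by gcongr

theorem norm_der {X : ℝ → ℂ} {V : ℂ} {t : ℝ} (h : HasDerivAt X V t) (h0 : 0 < ‖X t‖) :
    HasDerivAt (fun s => ‖X s‖) (inner ℝ (X t) V / ‖X t‖) t := by
  have h1 := h.norm_sq.sqrt (by positivity)
  have h2 : (fun s => Real.sqrt (‖X s‖ ^ 2)) = fun s => ‖X s‖ := by
    funext s
    exact Real.sqrt_sq (norm_nonneg _)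
  rw [h2, Real.sqrt_sq (norm_nonneg _)] at h1
  refine h1.congr_deriv ?_
  field_simp

/-- the lower bound, if the outer body moves away -/
theorem low0 (m : Fin 3 → ℝ) (hm : ∀ i, 0 < m i) (M : ℝ) (hM : ∑ i, m i = M)
    {x : ℝ → Ph 3} (hx : IsSol m Set.univ x) (hb : Bdd x) (E : ℝ) (hE0 : energy m (x 0) = E) (hE : E < 0)
    (J : ℝ) (hJ : |ang m (x 0)| ≤ J)
    (a b c : Fin 3) (hab : a ≠ b) (hca : c ≠ a) (hcb : c ≠ b) (ρ₀ : ℝ)
    (h0 : ρ₀ ≤ ‖prel m (x 0).1 a b c‖)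
    (hr : ‖(x 0).1 a - (x 0).1 b‖ < ‖prel m (x 0).1 a b c‖ / 2)
    (hK : 40 * (m a * m b + m b * m c + m c * m a) < ρ₀ * (-E))
    (hJρ : 8 * M * (J ^ 2 + 4 * (m a * m b) ^ 3 / ((m a + m b) * (-E))) / (m c * (m a + m b)) ^ 2 ≤ ρ₀)
    (hP : 0 ≤ inner ℝ (prel m (x 0).1 a b c) (prel m (x 0).2 a b c)) :
    ∃ t, ‖(x t).1 a - (x t).1 b‖ < ‖prel m (x t).1 a b c‖ / 2 ∧ ‖prel m (x t).1 a b c‖ = ρ₀ ∧
      2 * M * (1 - ρ₀ / ‖prel m (x 0).1 a b c‖ - 80 * (m a * m b / (ρ₀ * (-E))) ^ 2) ≤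
        ‖prel m (x t).2 a b c‖ ^ 2 * ρ₀ := by
  have hma := hm a
  have hmb := hm b
  have hmc := hm c
  have hMs : m a + m b + m c = M := by
    rw [← hM, Pool.Agent.Q85.UB.sum3 m a b c hab hca hcb]
  have hM0 : 0 < M := by rw [← hMs]; positivity
  have hE' : 0 < -E := by linarith
  have hρ₀ : 0 < ρ₀ := by
    by_contra hcon
    have h1 : ρ₀ * (-E) ≤ 0 := mul_nonpos_of_nonpos_of_nonneg (not_lt.1 hcon) hE'.le
    have h2 : 0 < m a * m b + m b * m c + m c * m a := by positivity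
    linarith
  have hen : ∀ t, energy m (x t) = E := fun t => by rw [energy_const hx t 0, hE0]
  have hang : ∀ t, |ang m (x t)| ≤ J := fun t => by rw [ang_const hx t 0]; exact hJ
  obtain ⟨X, hX⟩ : ∃ X : ℝ → ℂ, X = fun t => prel m (x t).1 a b c := ⟨_, rfl⟩
  obtain ⟨V, hV⟩ : ∃ V : ℝ → ℂ, V = fun t => prel m (x t).2 a b c := ⟨_, rfl⟩
  obtain ⟨Ac, hAc⟩ : ∃ Ac : ℝ → ℂ, Ac = fun t => prel m (fun i => acc m (x t).1 i) a b c := ⟨_, rfl⟩
  obtain ⟨r, hrd⟩ : ∃ r : ℝ → ℝ, r = fun t => ‖(x t).1 a - (x t).1 b‖ := ⟨_, rfl⟩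
  have hXt : ∀ t, prel m (x t).1 a b c = X t := fun t => by rw [hX]
  have hVt : ∀ t, prel m (x t).2 a b c = V t := fun t => by rw [hV]
  have hrt : ∀ t, ‖(x t).1 a - (x t).1 b‖ = r t := fun t => by rw [hrd]
  have hXd : ∀ t, HasDerivAt X (V t) t := fun t => by
    rw [hX, hV]
    exact prel_deriv m (fun s => (x s).1) _ t a b c (fun i => hasDerivAt_pos hx t i)
  have hVd : ∀ t, HasDerivAt V (Ac t) t := fun t => by
    rw [hV, hAc]
    exact prel_deriv m (fun s => (x s).2) _ t a b c (fun i => hasDerivAt_vel hx t i)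
  have hPd : ∀ t, HasDerivAt (fun s => inner ℝ (X s) (V s)) (‖V t‖ ^ 2 + inner ℝ (X t) (Ac t)) t := fun t => by
    refine ((hXd t).inner ℝ (hVd t)).congr_deriv ?_
    rw [real_inner_self_eq_norm_sq]
    ring
  have hfacts := fun t (h1 : ρ₀ ≤ ‖X t‖) (h2 : r t ≤ ‖X t‖ / 2) =>
    facts m hm M hM E hE (x t) (hx.mem t) (hen t) J (hang t) a b c hab hca hcb (X t) (V t) (Ac t)
      (hXt t).symm (hVt t).symm (by rw [hAc]) ρ₀ hρ₀ h1 (by rw [hrt]; exact h2) hK.le hJρ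
  simp only [hrt] at hfacts
  simp only [hXt, hVt, hrt] at h0 hr hP ⊢
  have cX : Continuous X := continuous_iff_continuousAt.mpr fun t => (hXd t).continuousAt
  have cr : Continuous r := by
    have cq : ∀ i, Continuous fun s => (x s).1 i := fun i =>
      continuous_iff_continuousAt.mpr fun t => (hasDerivAt_pos hx t i).continuousAt
    rw [hrd]
    exact ((cq a).sub (cq b)).norm
  have hρd : ∀ t, 0 < ‖X t‖ → HasDerivAt (fun s => ‖X s‖) (inner ℝ (X t) (V t) / ‖X t‖) t :=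
    fun t ht => norm_der (hXd t) ht
  have hneg : ∀ s : ℝ, HasDerivAt (fun s : ℝ => -s) (-1) s := fun s => hasDerivAt_neg s
  obtain ⟨S, hS, hfS, hph⟩ := reachAbs (fun s => ‖X (-s)‖) (fun s => inner ℝ (X (-s)) (V (-s)) / ‖X (-s)‖)
    (fun s => r (-s))
    (fun s => inner ℝ (X (-s)) (V (-s)) ^ 2 / ‖X (-s)‖ ^ 3 -
      (‖V (-s)‖ ^ 2 + inner ℝ (X (-s)) (Ac (-s))) / ‖X (-s)‖) ρ₀ M hM0 hρ₀
    (cX.norm.comp continuous_neg) (cr.comp continuous_neg)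
    (by simp only [neg_zero]; exact h0)
    (by simp only [neg_zero]; exact div_nonneg hP (norm_nonneg _))
    (by simp only [neg_zero]; exact hr)
    (fun s hs => by
      have h1 := (hρd (-s) hs).comp s (hneg s)
      refine h1.congr_deriv ?_
      ring)
    (fun s hs => by
      have h1 := ((hPd (-s)).div (hρd (-s) hs) hs.ne').comp s (hneg s)
      refine h1.congr_deriv ?_
      field_simp
      ring)
    (fun s h1 h2 => by
      have h3 := (hfacts (-s) h1 h2).1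
      have h4 : 0 < ‖X (-s)‖ := hρ₀.trans_le h1
      linarith)
    (fun s h1 h2 => by
      obtain ⟨-, k2, -, k4⟩ := hfacts (-s) h1 h2
      have h4 : 0 < ‖X (-s)‖ := hρ₀.trans_le h1
      obtain ⟨ρ, hρ⟩ : ∃ ρ, ρ = ‖X (-s)‖ := ⟨_, rfl⟩
      rw [← hρ] at k2 k4 h4 h1 ⊢
      have e1 : inner ℝ (X (-s)) (V (-s)) ^ 2 / ρ ^ 3 - (‖V (-s)‖ ^ 2 + inner ℝ (X (-s)) (Ac (-s))) / ρ =
          (-(ρ ^ 2 * ‖V (-s)‖ ^ 2 - inner ℝ (X (-s)) (V (-s)) ^ 2) - ρ ^ 2 * inner ℝ (X (-s)) (Ac (-s))) / ρ ^ 3 := by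
        field_simp
        ring
      have e2 : M / 2 / ρ ^ 2 = (M * ρ / 2) / ρ ^ 3 := by field_simp
      have e3 : ρ ^ 2 * inner ℝ (X (-s)) (Ac (-s)) ≤ ρ ^ 2 * -(3 / 4 * (M / ρ)) := by gcongr
      have e4 : ρ ^ 2 * -(3 / 4 * (M / ρ)) = -(3 / 4 * (M * ρ)) := by field_simp
      have e5 : M * ρ₀ ≤ M * ρ := by gcongr
      rw [e1, e2]
      gcongr
      linarith)
  -- the phase, forwards
  have hlow := lowAbs (fun u => ‖X (-S + u)‖) (fun u => inner ℝ (X (-S + u)) (V (-S + u)))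
    (fun u => ‖V (-S + u)‖ ^ 2) (fun u => inner ℝ (X (-S + u)) (Ac (-S + u)))
    (fun u => inner ℝ (V (-S + u)) (Ac (-S + u))) M (10 * M * (2 * (m a * m b) / (-E)) ^ 2)
    (Real.sqrt (M * ρ₀ / 4)) S hM0 (by positivity) (Real.sqrt_nonneg _) hS
  have hmem : ∀ u ∈ Icc 0 S, S - u ∈ Icc 0 S := fun u hu => ⟨by linarith [hu.2], by linarith [hu.1]⟩
  have hneg2 : ∀ u : ℝ, -(S - u) = -S + u := fun u => by ring
  have hph2 : ∀ u ∈ Icc 0 S, ρ₀ ≤ ‖X (-S + u)‖ ∧ 0 ≤ inner ℝ (X (-S + u)) (V (-S + u)) ∧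
      r (-S + u) < ‖X (-S + u)‖ / 2 := by
    intro u hu
    obtain ⟨h1, h2, h3⟩ := hph (S - u) (hmem u hu)
    simp only [hneg2] at h1 h2 h3
    refine ⟨h1, ?_, h3⟩
    have h4 : 0 < ‖X (-S + u)‖ := hρ₀.trans_le h1
    have h5 : inner ℝ (X (-S + u)) (V (-S + u)) =
        inner ℝ (X (-S + u)) (V (-S + u)) / ‖X (-S + u)‖ * ‖X (-S + u)‖ := by field_simp
    rw [h5]
    positivity
  have hadd : ∀ u : ℝ, HasDerivAt (fun u : ℝ => -S + u) 1 u := fun u => by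
    simpa using (hasDerivAt_id u).const_add (-S)
  have hsqrt : Real.sqrt (M * ρ₀ / 4) ^ 2 = M * ρ₀ / 4 := Real.sq_sqrt (by positivity)
  have hlow' := hlow
    (fun u hu => hρ₀.trans_le (hph2 u hu).1)
    (fun u hu => by
      have h1 := (hρd (-S + u) (hρ₀.trans_le (hph2 u hu).1)).comp u (hadd u)
      refine h1.congr_deriv ?_
      ring)
    (fun u hu => by
      have h1 := (hPd (-S + u)).comp u (hadd u)
      refine h1.congr_deriv ?_
      ring)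
    (fun u hu => by
      have h1 := ((hVd (-S + u)).norm_sq).comp u (hadd u)
      refine h1.congr_deriv ?_
      ring)
    (fun u hu => (hph2 u hu).2.1)
    (fun u hu => by positivity)
    (fun u hu => by
      rw [hsqrt]
      exact (hfacts (-S + u) (hph2 u hu).1 (hph2 u hu).2.2.le).2.2.2)
    (fun u hu => by
      rw [hsqrt]
      have := (hph2 u hu).1
      gcongr)
    (fun u hu => (hfacts (-S + u) (hph2 u hu).1 (hph2 u hu).2.2.le).2.1)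
    (fun u hu => (hfacts (-S + u) (hph2 u hu).1 (hph2 u hu).2.2.le).2.2.1)
  simp only [add_zero, neg_add_cancel] at hlow'
  have h00 : (0:ℝ) ∈ Icc 0 S := ⟨le_rfl, hS⟩
  obtain ⟨g1, g2, g3⟩ := hph2 0 h00
  simp only [add_zero] at g1 g2 g3
  refine ⟨-S, g3, hfS, ?_⟩
  -- the upper bound at this time
  have hup := outP m hm M hM hx hb E hE0 hE a b c hab hca hcb (-S) (by rw [hXt, hrt]; exact g3)
    (by rw [hXt, hfS]; exact hK)
  rw [hXt, hVt] at hup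
  rw [hfS] at hup hlow'
  obtain ⟨v, hv⟩ : ∃ v, v = ‖V (-S)‖ := ⟨_, rfl⟩
  obtain ⟨p, hp⟩ : ∃ p, p = inner ℝ (X (-S)) (V (-S)) := ⟨_, rfl⟩
  have hpv : p ≤ ρ₀ * v := by
    rw [hp, hv, ← hfS]
    exact real_inner_le_norm _ _
  rw [← hp] at hlow' g2
  rw [← hv] at hlow' hup ⊢
  obtain ⟨ζ, hζ⟩ : ∃ ζ, ζ = m a * m b / (ρ₀ * (-E)) := ⟨_, rfl⟩
  rw [← hζ] at hup ⊢
  have hv0 : 0 ≤ v := by rw [hv]; exact norm_nonneg _
  have hζ0 : 0 ≤ ζ := by rw [hζ]; positivity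
  have hζ1 : 40 * ζ ≤ 1 := by
    rw [hζ, ← mul_div_assoc, div_le_one (by positivity)]
    have : 0 < m b * m c + m c * m a := by positivity
    linarith
  have hR : 2 * (m a * m b) / (-E) = 2 * ζ * ρ₀ := by rw [hζ]; field_simp
  rw [hR] at hlow'
  obtain ⟨s, hs⟩ : ∃ s, s = Real.sqrt (M * ρ₀ / 4) := ⟨_, rfl⟩
  rw [← hs] at hlow' hsqrt
  have hs0 : 0 ≤ s := by rw [hs]; exact Real.sqrt_nonneg _
  have hD3 : 10 * M * (2 * ζ * ρ₀) ^ 2 / 3 / ρ₀ ^ 3 = 40 / 3 * (M * ζ ^ 2 / ρ₀) := by field_simp; ring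
  -- the last term
  have hsv : s * v ≤ 77 / 100 * M := by
    refine abs_le_of_sq_le_sq' ?_ (by positivity) |>.2
    have e1 : v ^ 2 * ρ₀ ≤ 2 * M * (1 + 240 * (1 / 40) ^ 2) := by
      refine hup.trans ?_
      have : ζ ^ 2 ≤ (1 / 40) ^ 2 := pow_le_pow_left₀ hζ0 (by linarith) 2
      gcongr
    calc (s * v) ^ 2 = s ^ 2 * v ^ 2 := by ring
      _ = M / 4 * (v ^ 2 * ρ₀) := by rw [hsqrt]; ring
      _ ≤ M / 4 * (2 * M * (1 + 240 * (1 / 40) ^ 2)) := by gcongr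
      _ ≤ (77 / 100 * M) ^ 2 := by nlinarith [sq_nonneg M]
  have hlast : 2 * (10 * M * (2 * ζ * ρ₀) ^ 2) * s / M * (p / ρ₀ ^ 4) ≤ 62 * (M * ζ ^ 2 / ρ₀) := by
    have e1 : p / ρ₀ ^ 4 ≤ ρ₀ * v / ρ₀ ^ 4 := by gcongr
    calc 2 * (10 * M * (2 * ζ * ρ₀) ^ 2) * s / M * (p / ρ₀ ^ 4) ≤
          2 * (10 * M * (2 * ζ * ρ₀) ^ 2) * s / M * (ρ₀ * v / ρ₀ ^ 4) := by gcongr
      _ = 80 * ζ ^ 2 * (s * v) / ρ₀ := by field_simp; ring
      _ ≤ 80 * ζ ^ 2 * (77 / 100 * M) / ρ₀ := by gcongr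
      _ = 61.6 * (M * ζ ^ 2 / ρ₀) := by ring
      _ ≤ _ := by gcongr; norm_num
  rw [hD3] at hlow'
  have hfin : -(M / ‖X 0‖) ≤ v ^ 2 / 2 - M / ρ₀ + 80 * (M * ζ ^ 2 / ρ₀) := by
    have : 0 ≤ M * ζ ^ 2 / ρ₀ := by positivity
    linarith
  have hX00 : 0 < ‖X 0‖ := hρ₀.trans_le h0
  have hfin2 : -(M / ‖X 0‖) * (2 * ρ₀) ≤ (v ^ 2 / 2 - M / ρ₀ + 80 * (M * ζ ^ 2 / ρ₀)) * (2 * ρ₀) := by
    gcongr
  have e5 : (v ^ 2 / 2 - M / ρ₀ + 80 * (M * ζ ^ 2 / ρ₀)) * (2 * ρ₀) = v ^ 2 * ρ₀ - 2 * M + 160 * (M * ζ ^ 2) := by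
    field_simp
    ring
  have e6 : -(M / ‖X 0‖) * (2 * ρ₀) = -(2 * M * (ρ₀ / ‖X 0‖)) := by ring
  rw [e5, e6] at hfin2
  linarith

/-- the time reversed solution -/
theorem rev_sol (m : Fin 3 → ℝ) {x : ℝ → Ph 3} (hx : IsSol m Set.univ x) :
    IsSol m Set.univ (fun t => ((x (-t)).1, fun i => -(x (-t)).2 i)) := by
  refine isSol_of (fun t => ?_) (fun t => ?_)
  · obtain ⟨h1, h2, h3⟩ := hx.mem (-t)
    refine ⟨h1, h2, ?_⟩
    have e1 : ∑ i, (m i : ℂ) * -(x (-t)).2 i = -∑ i, (m i : ℂ) * (x (-t)).2 i := by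
      rw [← Finset.sum_neg_distrib]
      exact Finset.sum_congr rfl fun i _ => by ring
    show ∑ i, (m i : ℂ) * -(x (-t)).2 i = 0
    rw [e1, h3, neg_zero]
  · have hn : HasDerivAt (fun s : ℝ => -s) (-1) t := hasDerivAt_neg t
    have h1 : HasDerivAt (fun s => (x (-s)).1) (fun i => -(x (-t)).2 i) t := by
      refine hasDerivAt_pi.2 fun i => ?_
      have h2 := (hasDerivAt_pos hx (-t) i).scomp t hn
      refine h2.congr_deriv ?_
      simp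
    have h3 : HasDerivAt (fun s => fun i => -(x (-s)).2 i) (fun i => acc m (x (-t)).1 i) t := by
      refine hasDerivAt_pi.2 fun i => ?_
      have h2 := ((hasDerivAt_vel hx (-t) i).scomp t hn).neg
      refine h2.congr_deriv ?_
      simp
    exact h1.prodMk h3

/-- **the lower bound** -/
theorem low (m : Fin 3 → ℝ) (hm : ∀ i, 0 < m i) (M : ℝ) (hM : ∑ i, m i = M)
    {x : ℝ → Ph 3} (hx : IsSol m Set.univ x) (hb : Bdd x) (E : ℝ) (hE0 : energy m (x 0) = E) (hE : E < 0)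
    (J : ℝ) (hJ : |ang m (x 0)| ≤ J)
    (a b c : Fin 3) (hab : a ≠ b) (hca : c ≠ a) (hcb : c ≠ b) (ρ₀ t₁ : ℝ)
    (h0 : ρ₀ ≤ ‖prel m (x t₁).1 a b c‖)
    (hr : ‖(x t₁).1 a - (x t₁).1 b‖ < ‖prel m (x t₁).1 a b c‖ / 2)
    (hK : 40 * (m a * m b + m b * m c + m c * m a) < ρ₀ * (-E))
    (hJρ : 8 * M * (J ^ 2 + 4 * (m a * m b) ^ 3 / ((m a + m b) * (-E))) / (m c * (m a + m b)) ^ 2 ≤ ρ₀) :
    ∃ t, ‖(x t).1 a - (x t).1 b‖ < ‖prel m (x t).1 a b c‖ / 2 ∧ ‖prel m (x t).1 a b c‖ = ρ₀ ∧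
      2 * M * (1 - ρ₀ / ‖prel m (x t₁).1 a b c‖ - 80 * (m a * m b / (ρ₀ * (-E))) ^ 2) ≤
        ‖prel m (x t).2 a b c‖ ^ 2 * ρ₀ := by
  have hb1 : ∀ s, Bdd (fun t => x (t + s)) := fun s => by
    obtain ⟨R, hR⟩ := hb
    exact ⟨R, fun t a b => hR (t + s) a b⟩
  have hen : ∀ t, energy m (x t) = E := fun t => by rw [energy_const hx t 0, hE0]
  have hang : ∀ t, |ang m (x t)| ≤ J := fun t => by rw [ang_const hx t 0]; exact hJ
  have hx1 := hx.shift t₁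
  rcases le_total 0 (inner ℝ (prel m (x t₁).1 a b c) (prel m (x t₁).2 a b c)) with hP | hP
  · obtain ⟨t, h1, h2, h3⟩ := low0 m hm M hM hx1 (hb1 t₁) E (by simp only [zero_add]; exact hen t₁) hE J
      (by simp only [zero_add]; exact hang t₁) a b c hab hca hcb ρ₀ (by simp only [zero_add]; exact h0)
      (by simp only [zero_add]; exact hr) hK hJρ (by simp only [zero_add]; exact hP)
    simp only [zero_add] at h3
    exact ⟨t + t₁, h1, h2, h3⟩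
  · have hx2 := rev_sol m hx1
    have hneg : ∀ t, prel m (fun i => -(x (-t + t₁)).2 i) a b c = -prel m (x (-t + t₁)).2 a b c := fun t => by
      unfold prel
      ring
    obtain ⟨t, h1, h2, h3⟩ := low0 m hm M hM hx2 (by
        obtain ⟨R, hR⟩ := hb
        exact ⟨R, fun t a b => hR (-t + t₁) a b⟩) E (by
        simp only [neg_zero, zero_add]
        have h4 := hen t₁
        unfold energy at h4 ⊢
        simp only [norm_neg]
        exact h4) hE J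
      (by
        simp only [neg_zero, zero_add]
        have h4 := hang t₁
        have h5 : ang m ((x t₁).1, fun i => -(x t₁).2 i) = -ang m (x t₁) := by
          unfold ang
          rw [← Finset.sum_neg_distrib]
          refine Finset.sum_congr rfl fun i _ => ?_
          simp only [mul_neg, Complex.neg_im]
        rw [h5, abs_neg]
        exact h4) a b c hab hca hcb ρ₀ (by simp only [neg_zero, zero_add]; exact h0)
      (by simp only [neg_zero, zero_add]; exact hr) hK hJρ (by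
        have hneg0 := hneg 0
        simp only [neg_zero, zero_add] at hneg0 ⊢
        rw [hneg0, inner_neg_right]
        linarith)
    simp only [hneg, neg_zero, zero_add, norm_neg] at h3
    exact ⟨-t + t₁, h1, h2, h3⟩

end Pool.Agent.H239.PBS
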