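import Pool.Agent.H239.NBS.Mot3
import Pool.Graph.R_pool_sql_team_seeded_3997aac3.Q85.UB.Com

set_option autoImplicit false

/-! Three bodies in the plane: the tight pair and the third body, at one instant. -/

namespace Pool.Agent.H239.PBS

open Set Filter Topology Pool.Agent.W821.TB
open Pool.Agent.Y516.NW (E3 Cfg Mot)
open Pool.Agent.Q85.UB (io io_norm io_sub io_acc io_en prel mot Bdd sum_acc3)
open Pool.Agent.H239.NBS (accQ)

theorem prel_eq (m : Fin 3 → ℝ) (hm : ∀ i, 0 < m i) (M : ℝ) (hM : ∑ i, m i = M) (u : Fin 3 → ℂ)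
    (hu : ∑ i, (m i : ℂ) * u i = 0) (a b c : Fin 3) (hab : a ≠ b) (hca : c ≠ a) (hcb : c ≠ b)
    (lam : ℝ) (hlam : lam = M / (m a + m b)) : prel m u a b c = lam • u c := by
  have hma := hm a
  have hmb := hm b
  have hs : (0 : ℝ) < m a + m b := by positivity
  have hsc : ((m a : ℂ) + (m b : ℂ)) ≠ 0 := by
    rw [← Complex.ofReal_add]
    exact Complex.ofReal_ne_zero.mpr hs.ne'
  rw [Pool.Agent.Q85.UB.sum3 _ a b c hab hca hcb] at hu hM
  have h1 : (m a : ℂ) * u a + (m b : ℂ) * u b = -((m c : ℂ) * u c) := eq_neg_of_add_eq_zero_left hu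
  unfold prel
  rw [h1, Complex.real_smul, hlam, ← hM]
  push_cast
  field_simp
  ring

/-- the acceleration of the third body -/
theorem accP (m : Fin 3 → ℝ) (hm : ∀ i, 0 < m i) (M : ℝ) (hM : ∑ i, m i = M) (z : Ph 3)
    (hz : z ∈ phaseSpace m) (a b c : Fin 3) (hab : a ≠ b) (hca : c ≠ a) (hcb : c ≠ b)
    (X Ac : ℂ) (hX : X = prel m z.1 a b c) (hA : Ac = prel m (fun i => acc m z.1 i) a b c)
    (h0 : 0 < ‖X‖) (hr : ‖z.1 a - z.1 b‖ ≤ ‖X‖ / 2) :
    ‖Ac + (M / ‖X‖ ^ 3) • X‖ ≤ 10 * M * ‖z.1 a - z.1 b‖ ^ 2 / ‖X‖ ^ 4 ∧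
      m a * m c / ‖z.1 a - z.1 c‖ + m b * m c / ‖z.1 b - z.1 c‖ ≤
        m c * (m a + m b) * (1 / ‖X‖) +
          2 * (m a * m b * m c / (m a + m b)) * ‖z.1 a - z.1 b‖ ^ 2 / ‖X‖ ^ 3 := by
  obtain ⟨lam, hlam⟩ : ∃ lam, lam = M / (m a + m b) := ⟨_, rfl⟩
  have e1 : X = lam • z.1 c := by
    rw [hX, prel_eq m hm M hM z.1 hz.2.1 a b c hab hca hcb lam hlam]
  have e2 : Ac = lam • acc m z.1 c := by
    rw [hA, prel_eq m hm M hM (fun i => acc m z.1 i) (sum_acc3 m z.1) a b c hab hca hcb lam hlam]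
  have e3 : lam • io (z.1 c) = io X := by rw [← map_smul, ← e1]
  have hq : ∑ i, m i • io (z.1 i) = 0 := by
    have : ∑ i, m i • io (z.1 i) = io (∑ i, (m i : ℂ) * z.1 i) := by
      rw [map_sum]
      refine Finset.sum_congr rfl fun i _ => ?_
      rw [← map_smul, Complex.real_smul]
    rw [this, hz.2.1, map_zero]
  have key := accQ m hm M hM (fun i => io (z.1 i)) hq a b c hab hca hcb lam hlam
    (by rw [e3, io_norm]; exact h0) (by rw [e3, io_norm, io_sub]; exact hr)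
  simp only [io_sub, io_acc, e3, io_norm] at key
  obtain ⟨k1, k2⟩ := key
  refine ⟨?_, k2⟩
  rw [← map_smul, ← map_smul, ← map_add, io_norm, ← e2] at k1
  exact k1

/-- the pair is tight -/
theorem tightP (m : Fin 3 → ℝ) (hm : ∀ i, 0 < m i) (M : ℝ) (hM : ∑ i, m i = M) (E : ℝ) (hE : E < 0)
    (z : Ph 3) (hz : z ∈ phaseSpace m) (hen : energy m z = E) (a b c : Fin 3) (hab : a ≠ b)
    (hca : c ≠ a) (hcb : c ≠ b) (X : ℂ) (hX : X = prel m z.1 a b c) (h0 : 0 < ‖X‖)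
    (hr : ‖z.1 a - z.1 b‖ ≤ ‖X‖ / 2) (hK : 4 * (m a * m b + m b * m c + m c * m a) ≤ ‖X‖ * (-E)) :
    ‖z.1 a - z.1 b‖ ≤ 2 * (m a * m b) / (-E) ∧
      ‖z.2 a - z.2 b‖ ^ 2 * ‖z.1 a - z.1 b‖ ≤ 2 * (m a + m b) := by
  have hma := hm a
  have hmb := hm b
  have hmc := hm c
  have hne : z.1 a ≠ z.1 b := hz.1 a b hab
  obtain ⟨-, k2⟩ := accP m hm M hM z hz a b c hab hca hcb X _ hX rfl h0 hr
  have hio := io_en m z
  rw [hen] at hio
  have hvs : m a • io (z.2 a) + (m b • io (z.2 b) + m c • io (z.2 c)) = 0 := by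
    have : ∑ i, m i • io (z.2 i) = io (∑ i, (m i : ℂ) * z.2 i) := by
      rw [map_sum]
      refine Finset.sum_congr rfl fun i _ => ?_
      rw [← map_smul, Complex.real_smul]
    rw [hz.2.2, map_zero, Pool.Agent.T6.H53.NB.sum3 _ a b c hab hca hcb] at this
    exact this
  have hPo : ∑ i, ∑ j, m i * m j / ‖io (z.1 i) - io (z.1 j)‖ / 2 = m a * m b / ‖io (z.1 a) - io (z.1 b)‖ +
      m a * m c / ‖io (z.1 a) - io (z.1 c)‖ + m b * m c / ‖io (z.1 b) - io (z.1 c)‖ :=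
    Pool.Agent.T6.H53.NB.Po3 m (fun i => io (z.1 i)) a b c hab hca hcb
  rw [Pool.Agent.T6.H53.NB.sum3 (fun i => m i * ‖io (z.2 i)‖ ^ 2 / 2) a b c hab hca hcb, hPo] at hio
  have e1 := Pool.Agent.T6.H53.NB.split3' hma hmb _ _ _ hvs
  simp only [io_sub, io_norm, ← map_sub] at e1 hio
  obtain ⟨r, hrd⟩ : ∃ r, r = ‖z.1 a - z.1 b‖ := ⟨_, rfl⟩
  obtain ⟨ρ, hρ⟩ : ∃ ρ, ρ = ‖X‖ := ⟨_, rfl⟩
  have hr0 : 0 < r := by rw [hrd]; exact norm_pos_iff.2 (sub_ne_zero.2 hne)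
  rw [← hρ] at k2 h0 hr hK
  rw [← hrd] at k2 hr hio ⊢
  have hE' : 0 < -E := by linarith
  -- the perturbation
  have f3 : 2 * (m a * m b * m c / (m a + m b)) * r ^ 2 / ρ ^ 3 ≤ m a * m b * m c / (m a + m b) / ρ / 2 := by
    have g1 : r ^ 2 ≤ (ρ / 2) ^ 2 := pow_le_pow_left₀ hr0.le hr 2
    obtain ⟨k, hk⟩ : ∃ k, k = m a * m b * m c / (m a + m b) := ⟨_, rfl⟩
    have hk0 : 0 < k := by rw [hk]; positivity
    rw [← hk]
    calc 2 * k * r ^ 2 / ρ ^ 3 ≤ 2 * k * (ρ / 2) ^ 2 / ρ ^ 3 := by gcongr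
      _ = k / ρ / 2 := by field_simp
  have f4 : m a * m b * m c / (m a + m b) ≤ m c * (m a + m b) := by
    rw [div_le_iff₀ (by positivity)]
    have : m c * (m a * m b) ≤ m c * (m a + m b) ^ 2 := by
      gcongr
      nlinarith
    nlinarith
  have f5 : m c * (m a + m b) * (1 / ρ) + 2 * (m a * m b * m c / (m a + m b)) * r ^ 2 / ρ ^ 3 ≤ (-E) / 2 := by
    have g1 : m a * m b * m c / (m a + m b) / ρ / 2 ≤ m c * (m a + m b) / ρ / 2 := by gcongr
    have g2 : m c * (m a + m b) * (1 / ρ) = m c * (m a + m b) / ρ := by ring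
    have g3 : m c * (m a + m b) / ρ ≤ (-E) / 4 := by
      rw [div_le_iff₀ h0]
      have : 0 < m a * m b := by positivity
      linarith
    rw [g2]
    linarith
  have f6 : 0 ≤ m a * m b / (m a + m b) * ‖z.2 a - z.2 b‖ ^ 2 := by positivity
  have f7 : 0 ≤ m c * (m a + m b + m c) / (m a + m b) * ‖z.2 c‖ ^ 2 := by positivity
  have f8 : (-E) / 2 ≤ m a * m b / r := by linarith
  constructor
  · rw [le_div_iff₀ hr0] at f8
    rw [le_div_iff₀ hE']
    linarith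
  · have f9 : m a * m b / (m a + m b) * ‖z.2 a - z.2 b‖ ^ 2 ≤ 2 * (m a * m b / r) := by linarith
    have f10 : m a * m b / (m a + m b) * (‖z.2 a - z.2 b‖ ^ 2 * r) ≤
        m a * m b / (m a + m b) * (2 * (m a + m b)) := by
      calc m a * m b / (m a + m b) * (‖z.2 a - z.2 b‖ ^ 2 * r) =
            m a * m b / (m a + m b) * ‖z.2 a - z.2 b‖ ^ 2 * r := by ring
        _ ≤ 2 * (m a * m b / r) * r := by gcongr
        _ = _ := by field_simp
    exact le_of_mul_le_mul_left f10 (by positivity)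

/-- the angular momentum -/
theorem angP (m : Fin 3 → ℝ) (hm : ∀ i, 0 < m i) (M : ℝ) (hM : ∑ i, m i = M) (z : Ph 3)
    (hz : z ∈ phaseSpace m) (a b c : Fin 3) (hab : a ≠ b) (hca : c ≠ a) (hcb : c ≠ b)
    (X V : ℂ) (hX : X = prel m z.1 a b c) (hV : V = prel m z.2 a b c) :
    ang m z = m a * m b / (m a + m b) *
        ((starRingEnd ℂ) (z.1 a - z.1 b) * (z.2 a - z.2 b)).im +
      m c * (m a + m b) / M * ((starRingEnd ℂ) X * V).im := by
  have hma := hm a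
  have hmb := hm b
  have hmc := hm c
  have hMs : m a + m b + m c = M := by
    rw [← hM, Pool.Agent.Q85.UB.sum3 m a b c hab hca hcb]
  obtain ⟨lam, hlam⟩ : ∃ lam, lam = M / (m a + m b) := ⟨_, rfl⟩
  rw [prel_eq m hm M hM z.1 hz.2.1 a b c hab hca hcb lam hlam] at hX
  rw [prel_eq m hm M hM z.2 hz.2.2 a b c hab hca hcb lam hlam] at hV
  have h1 := hz.2.1
  have h2 := hz.2.2
  rw [Pool.Agent.Q85.UB.sum3 _ a b c hab hca hcb] at h1 h2
  have r1 := congrArg Complex.re h1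
  have i1 := congrArg Complex.im h1
  have r2 := congrArg Complex.re h2
  have i2 := congrArg Complex.im h2
  unfold ang
  rw [Pool.Agent.Q85.UB.sum3 _ a b c hab hca hcb, hX, hV, hlam, ← hMs]
  simp only [Complex.add_re, Complex.add_im, Complex.mul_re, Complex.mul_im, Complex.ofReal_re, Complex.ofReal_im,
    Complex.conj_re, Complex.conj_im, Complex.sub_re, Complex.sub_im, Complex.real_smul, Complex.zero_re,
    Complex.zero_im, zero_mul, sub_zero, add_zero, map_sub, map_mul] at r1 i1 r2 i2 ⊢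
  have hM0 : m a + m b + m c ≠ 0 := by positivity
  have hs0 : m a + m b ≠ 0 := by positivity
  have ea : (z.1 a).re = -(m b * (z.1 b).re + m c * (z.1 c).re) / m a := by
    field_simp; linarith
  have eb : (z.1 a).im = -(m b * (z.1 b).im + m c * (z.1 c).im) / m a := by
    field_simp; linarith
  have ec : (z.2 a).re = -(m b * (z.2 b).re + m c * (z.2 c).re) / m a := by
    field_simp; linarith
  have ed : (z.2 a).im = -(m b * (z.2 b).im + m c * (z.2 c).im) / m a := by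
    field_simp; linarith
  rw [ea, eb, ec, ed]
  field_simp
  ring

end Pool.Agent.H239.PBS
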